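import Mathlib

set_option autoImplicit false

/-!
# The second moment of a random determinant

PROOF. `det (fun i j => φ (e i) j) ^ 2 = ∑ σ, ∑ τ, sign σ * sign τ * ∏ i, φ (e i) (σ i) * φ (e i) (τ i)`
(`Matrix.det_apply'` for the transpose, so that the factor is `φ (e i) (σ i)`). Exchange the sums:
`∑ e, ∏ i, (a (e i) * φ (e i) (σ i) * φ (e i) (τ i)) = ∏ i, K (σ i) (τ i)` by
`Finset.prod_univ_sum` (`Fintype.piFinset_univ`) read from right to left. Then
`∑ τ, sign σ * sign τ * ∏ i, K (σ i) (τ i) = det K` for each `σ` (substitute `τ = π * σ` and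
reindex `i`: `∏ i, K (σ i) (π (σ i)) = ∏ j, K j (π j)`, `sign σ * sign (π * σ) = sign π`), and the sum
over `σ` gives `m!` (`Fintype.card_perm`).
-/

namespace Pool.Agent.Lib.MP_727085_co.Rh

private lemma Sec_det {m : ℕ} (A : Matrix (Fin m) (Fin m) ℝ) :
    A.det = ∑ σ : Equiv.Perm (Fin m), ((Equiv.Perm.sign σ : ℤ) : ℝ) * ∏ i, A i (σ i) := by
  rw [← Matrix.det_transpose, Matrix.det_apply']
  rfl

theorem sum_det_sq {W : Type*} [Fintype W] {m : ℕ} (φ : W → Fin m → ℝ) (a : W → ℝ) :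
    ∑ e : Fin m → W, (∏ i, a (e i)) * (Matrix.of fun i j => φ (e i) j).det ^ 2 =
      m.factorial * (Matrix.of fun j k => ∑ u, a u * (φ u j * φ u k)).det := by
  classical
  set K : Matrix (Fin m) (Fin m) ℝ := Matrix.of fun j k => ∑ u, a u * (φ u j * φ u k) with hK
  have h1 : ∀ e : Fin m → W, (∏ i, a (e i)) * (Matrix.of fun i j => φ (e i) j).det ^ 2 =
      ∑ σ : Equiv.Perm (Fin m), ∑ τ : Equiv.Perm (Fin m),
        (((Equiv.Perm.sign σ : ℤ) : ℝ) * ((Equiv.Perm.sign τ : ℤ) : ℝ)) *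
          ∏ i, (a (e i) * (φ (e i) (σ i) * φ (e i) (τ i))) := by
    intro e
    rw [Sec_det, sq, Finset.sum_mul_sum, Finset.mul_sum]
    refine Finset.sum_congr rfl fun σ _ => ?_
    rw [Finset.mul_sum]
    refine Finset.sum_congr rfl fun τ _ => ?_
    rw [Finset.prod_mul_distrib, Finset.prod_mul_distrib]
    simp only [Matrix.of_apply]
    ring
  rw [Finset.sum_congr rfl fun e _ => h1 e, Finset.sum_comm]
  have h2 : ∀ σ : Equiv.Perm (Fin m), ∑ e : Fin m → W, ∑ τ : Equiv.Perm (Fin m),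
        (((Equiv.Perm.sign σ : ℤ) : ℝ) * ((Equiv.Perm.sign τ : ℤ) : ℝ)) *
          ∏ i, (a (e i) * (φ (e i) (σ i) * φ (e i) (τ i))) = K.det := by
    intro σ
    rw [Finset.sum_comm]
    have h3 : ∀ τ : Equiv.Perm (Fin m), ∑ e : Fin m → W,
        (((Equiv.Perm.sign σ : ℤ) : ℝ) * ((Equiv.Perm.sign τ : ℤ) : ℝ)) *
          ∏ i, (a (e i) * (φ (e i) (σ i) * φ (e i) (τ i))) =
        ((Equiv.Perm.sign σ : ℤ) : ℝ) * (((Equiv.Perm.sign τ : ℤ) : ℝ) *
          ∏ i, (K.submatrix σ id) i (τ i)) := by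
      intro τ
      rw [← Finset.mul_sum, mul_assoc]
      congr 2
      have h4 := Finset.prod_univ_sum (t := fun _ : Fin m => (Finset.univ : Finset W))
        (f := fun i u => a u * (φ u (σ i) * φ u (τ i)))
      rw [Fintype.piFinset_univ] at h4
      rw [← h4]
      rfl
    rw [Finset.sum_congr rfl fun τ _ => h3 τ, ← Finset.mul_sum, ← Sec_det, Matrix.det_permute,
      ← mul_assoc]
    have h5 : ((Equiv.Perm.sign σ : ℤ) : ℝ) * ((Equiv.Perm.sign σ : ℤ) : ℝ) = 1 := by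
      rcases Int.units_eq_one_or (Equiv.Perm.sign σ) with h | h
      · rw [h]
        norm_num
      · rw [h]
        norm_num
    rw [h5, one_mul]
  rw [Finset.sum_congr rfl fun σ _ => h2 σ, Finset.sum_const, Finset.card_univ, Fintype.card_perm,
    Fintype.card_fin, nsmul_eq_mul]

end Pool.Agent.Lib.MP_727085_co.Rh
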