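import Pool.Agent.Lib.MP_727085_co.Rh.Prd
import Pool.Agent.Lib.MP_727085_co.Rh.Sec

set_option autoImplicit false

/-!
# The sum of the determinants

PROOF. Cauchy and Schwarz (`Finset.inner_mul_le_norm_mul_norm` / `Finset.sum_mul_sq_le_sq_mul_sq` with
`√(∏ wt) * |det|` and `√(∏ wt)`): the square of the left-hand side is at most
`(∑ e, ∏ wt * det ^ 2) * (∑ e, ∏ wt) = (n+1)! * det K * S ^ (n+1)` (`sum_det_sq` with `φ = hat`,
`a = wt z`, and `Finset.prod_univ_sum` for the second factor), which is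
`(n+1)! * (S ^ (n+1)) ^ 2 * ∏ p (1 - p)` (`det_second`), and
`p (1 - p) = (1 / (2 cosh (z (j+1) / 2))) ^ 2`:
`p (1-p) = e^y / (1 + e^y)^2 = 1 / (e^{y/2} + e^{-y/2})^2`. Take square roots (`Real.le_sqrt`,
`abs_le_of_sq_le_sq`).
-/

namespace Pool.Agent.Lib.MP_727085_co.Rh

open Pool.Agent.Lib.MP_727085_co Matrix MeasureTheory
open scoped Real ENNReal

variable {n : ℕ}

private theorem Alg_pp (z : Fin (n + 1) → ℝ) (j : Fin n) :
    pp z j * (1 - pp z j) = (1 / (2 * Real.cosh (z j.succ / 2))) ^ 2 := by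
  unfold pp
  have h1 : Real.exp (z j.succ) = Real.exp (z j.succ / 2) ^ 2 := by
    rw [← Real.exp_nat_mul]
    congr 1
    push_cast
    ring
  rw [h1, Real.cosh_eq, Real.exp_neg]
  have h2 : 0 < Real.exp (z j.succ / 2) := Real.exp_pos _
  generalize Real.exp (z j.succ / 2) = t at h2
  have h3 : (1 + t ^ 2) ≠ 0 := by positivity
  have h4 : t + t⁻¹ ≠ 0 := by positivity
  have h5 : t ≠ 0 := h2.ne'
  field_simp
  ring

theorem sum_det_le (z : Fin (n + 1) → ℝ) :
    ∑ e : Fin (n + 1) → V n, |(M e).det| * ∏ i, wt z (e i) ≤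
      Real.sqrt ((n + 1).factorial) * S z ^ (n + 1) *
        ∏ j : Fin n, (1 / (2 * Real.cosh (z j.succ / 2))) := by
  have hwt : ∀ u : V n, 0 < wt z u := fun u => Real.exp_pos _
  have hP : ∀ e : Fin (n + 1) → V n, 0 < ∏ i, wt z (e i) := fun e =>
    Finset.prod_pos fun i _ => hwt (e i)
  have hS : 0 ≤ S z := Finset.sum_nonneg fun u _ => (hwt u).le
  have h1 : ∑ e : Fin (n + 1) → V n, (∏ i, wt z (e i)) = S z ^ (n + 1) := by
    have := Finset.prod_univ_sum (fun _ : Fin (n + 1) => (Finset.univ : Finset (V n)))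
      (fun _ u => wt z u)
    rw [Fintype.piFinset_univ] at this
    rw [← this]
    simp [S]
  have h2 : ∑ e : Fin (n + 1) → V n, (∏ i, wt z (e i)) * (M e).det ^ 2 =
      (n + 1).factorial * (S z ^ (n + 1) * ∏ j, (pp z j * (1 - pp z j))) := by
    rw [← det_second]
    exact sum_det_sq hat (wt z)
  have h3 := Finset.sum_mul_sq_le_sq_mul_sq (Finset.univ : Finset (Fin (n + 1) → V n))
    (fun e => Real.sqrt (∏ i, wt z (e i)) * |(M e).det|)
    (fun e => Real.sqrt (∏ i, wt z (e i)))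
  have h4 : ∀ e : Fin (n + 1) → V n, (Real.sqrt (∏ i, wt z (e i)) * |(M e).det|) *
      Real.sqrt (∏ i, wt z (e i)) = |(M e).det| * ∏ i, wt z (e i) := by
    intro e
    have := Real.mul_self_sqrt (hP e).le
    calc _ = |(M e).det| * (Real.sqrt (∏ i, wt z (e i)) * Real.sqrt (∏ i, wt z (e i))) := by ring
      _ = _ := by rw [this]
  have h5 : ∀ e : Fin (n + 1) → V n, (Real.sqrt (∏ i, wt z (e i)) * |(M e).det|) ^ 2 =
      (∏ i, wt z (e i)) * (M e).det ^ 2 := by
    intro e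
    rw [mul_pow, Real.sq_sqrt (hP e).le, sq_abs]
  have h6 : ∀ e : Fin (n + 1) → V n, (Real.sqrt (∏ i, wt z (e i))) ^ 2 =
      (∏ i, wt z (e i)) := fun e => Real.sq_sqrt (hP e).le
  simp only [h4, h5, h6] at h3
  rw [h1, h2] at h3
  have h7 : (Real.sqrt ((n + 1).factorial) * S z ^ (n + 1) *
        ∏ j : Fin n, (1 / (2 * Real.cosh (z j.succ / 2)))) ^ 2 =
      (n + 1).factorial * (S z ^ (n + 1) * ∏ j, (pp z j * (1 - pp z j))) * S z ^ (n + 1) := by
    rw [mul_pow, mul_pow, Real.sq_sqrt (by positivity), ← Finset.prod_pow]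
    simp only [Alg_pp]
    ring
  rw [← h7] at h3
  have h8 : 0 ≤ Real.sqrt ((n + 1).factorial) * S z ^ (n + 1) *
        ∏ j : Fin n, (1 / (2 * Real.cosh (z j.succ / 2))) := by
    apply mul_nonneg (mul_nonneg (Real.sqrt_nonneg _) (pow_nonneg hS _))
    exact Finset.prod_nonneg fun j _ => by
      have := Real.cosh_pos (z j.succ / 2)
      positivity
  exact le_trans (le_abs_self _) (abs_le_of_sq_le_sq h3 h8)

end Pool.Agent.Lib.MP_727085_co.Rh
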