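import Pool.Agent.Lib.MP_727085_co.Rh.Defs

set_option autoImplicit false

/-!
# Each simplex comes from `(n+1)!` tuples

PROOF. `Good g (e ∘ σ)` for a permutation `σ`: `M (e ∘ σ)` is a row permutation of `M e`
(`Matrix.det_permute`, or `Matrix.submatrix`), and `zed g (e ∘ σ) = zed g e` by `zed_unique`.
`ver (e ∘ σ) = ver e`. The map `σ ↦ e ∘ σ` is injective as `e` is. So every fibre of
`ver : good g → Tg g` has at least `(n+1)!` members (`Fintype.card_perm`); sum over the fibres
(`Finset.card_eq_sum_card_image`, `Finset.card_nsmul_le_sum`).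
-/

namespace Pool.Agent.Lib.MP_727085_co.Rh

open Pool.Agent.Lib.MP_727085_co Matrix MeasureTheory
open scoped Real

variable {n : ℕ}

theorem good_perm {g : V n → ℝ} {e : Fin (n + 1) → V n} (he : Good g e)
    (σ : Equiv.Perm (Fin (n + 1))) : Good g (e ∘ σ) := by
  have h1 : M (e ∘ σ) = (M e).submatrix σ id := rfl
  have h2 : (M (e ∘ σ)).det ≠ 0 := by
    rw [h1, Matrix.det_permute]
    refine mul_ne_zero ?_ he.1
    rcases Int.units_eq_one_or (Equiv.Perm.sign σ) with h | h <;> rw [h] <;> norm_num
  have h3 : zed g (e ∘ σ) = zed g e := by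
    refine zed_unique h2 g _ fun i => ?_
    exact zed_spec he.1 g (σ i)
  refine ⟨h2, fun u => ?_⟩
  rw [h3]
  exact he.2 u

theorem card_le (g : V n → ℝ) : (n + 1).factorial * (Tg g).card ≤ (good g).card := by
  classical
  unfold Tg
  refine Finset.mul_card_image_le_card _ _ fun a ha => ?_
  rw [Finset.mem_image] at ha
  obtain ⟨e, he, rfl⟩ := ha
  have hg : Good g e := by
    unfold good at he
    rw [Finset.mem_filter] at he
    exact he.2
  have hinj : Function.Injective e := injective_of_det hg.1
  have h1 : (Finset.univ.image fun σ : Equiv.Perm (Fin (n + 1)) => e ∘ σ) ⊆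
      (good g).filter (fun x => ver x = ver e) := by
    intro f hf
    rw [Finset.mem_image] at hf
    obtain ⟨σ, -, rfl⟩ := hf
    rw [Finset.mem_filter]
    refine ⟨?_, ?_⟩
    · unfold good
      rw [Finset.mem_filter]
      exact ⟨Finset.mem_univ _, good_perm hg σ⟩
    · ext x
      rw [mem_ver, mem_ver]
      constructor
      · rintro ⟨i, hi⟩
        exact ⟨σ i, hi⟩
      · rintro ⟨i, hi⟩
        refine ⟨σ.symm i, ?_⟩
        rw [Function.comp_apply, Equiv.apply_symm_apply]
        exact hi
  have h2 : Function.Injective fun σ : Equiv.Perm (Fin (n + 1)) => e ∘ σ := by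
    intro σ τ h
    ext i
    have := congrFun h i
    exact congrArg _ (hinj this)
  have h3 := Finset.card_le_card h1
  rw [Finset.card_image_of_injective _ h2, Finset.card_univ, Fintype.card_perm,
    Fintype.card_fin] at h3
  exact h3

end Pool.Agent.Lib.MP_727085_co.Rh
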