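import Pool.Agent.Lib.MP_727085_co.Rh.Defs
import Pool.Agent.Lib.MP_727085_co.Moves
import Pool.Agent.Lib.MP_727085_co.MaxDet

set_option autoImplicit false

/-!
# The pivot step and the coverage of generic points

PROOF. `exists_start`: `x` is in the convex hull of `Set.range toPt` (`icc_eq_hull` of
MaxDet.lean). Caratheodory `eq_pos_convex_span_of_mem_convexHull` gives a finite affinely
independent family `z : ι → _` in `Set.range toPt` with positive weights. Its card is at most
`n + 1` (`AffineIndependent.card_le_finrank_succ`), and more than `n` because otherwise `x` is in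
the hull of the finset image of `z` with at most `n` members, against `GenPos` (Moves.lean: `x` is
in the hull of no finset of at most `n` members of `L`). So `ι ≃ Fin (n+1)`; choose `e`;
`det_ne_zero_of_affineIndependent`, `comb_of`.

`pos_of_gen`: if `c i = 0` then `x` is in the hull of the `n` points `toPt (e k)`, `k ≠ i`.

`pivot`: `x` has positive coefficients `c` for `e`, and `hat u = ∑ a i • hat (e i)` with
`g u > hat u ⬝ᵥ zed g e = ∑ a i * g (e i)`. As `∑ a i = 1` there is `i` with `a i > 0`; choose
`i0` among these with `c i / a i` minimal, `ε := c i0 / a i0 > 0`, and `e' := Function.update e i0 u`.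
Then `M e' = (M e).updateRow i0 (hat u)`, `det = a i0 * det (M e) ≠ 0` (put the sum in the row,
e.g. `Matrix.det_updateRow_sum` or compare: `hat u ᵥ* (M e)⁻¹`), the coefficients of `x` for `e'` are
`c i - ε * a i` (`i ≠ i0`) and `ε`, all `≥ 0`, and the value increases by
`ε (g u - ∑ a i g (e i)) > 0`: `lift x ⬝ᵥ zed g e' > lift x ⬝ᵥ zed g e` (both sides by `comb_dot`
and `zed_spec`).

`exists_good`: among the finitely many `e` with `det ≠ 0` and nonnegative coefficients for `x`
choose one which maximises `lift x ⬝ᵥ zed g e` (`Finset.exists_max_image`).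
-/

namespace Pool.Agent.Lib.MP_727085_co.Rh

open Pool.Agent.Lib.MP_727085_co Matrix MeasureTheory
open scoped Real

variable {n : ℕ}

theorem exists_start {x : Fin n → ℝ} (hx : x ∈ Set.Icc (0 : Fin n → ℝ) 1)
    (hg : GenPos n (Set.range (toPt : V n → Fin n → ℝ)) x) :
    ∃ e : Fin (n + 1) → V n, (M e).det ≠ 0 ∧ ∃ c : Fin (n + 1) → ℝ, (∀ i, 0 ≤ c i) ∧
      ∑ i, c i • hat (e i) = lift x := by
  classical
  rw [icc_eq_hull] at hx
  obtain ⟨ι, _, z, w, hz, hind, hw, hw1, hwx⟩ := eq_pos_convex_span_of_mem_convexHull hx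
  have h1 : Fintype.card ι ≤ n + 1 := by
    have h := hind.card_le_finrank_succ
    refine h.trans (Nat.succ_le_succ ?_)
    refine (Submodule.finrank_le _).trans ?_
    simp
  have h2 : n + 1 ≤ Fintype.card ι := by
    by_contra hlt
    push Not at hlt
    refine hg (Finset.univ.image z) ?_ ?_ ?_
    · rw [Finset.coe_image, Finset.coe_univ, Set.image_univ]; exact hz
    · exact Finset.card_image_le.trans (by rw [Finset.card_univ]; omega)
    · rw [← hwx]
      refine (convex_convexHull ℝ _).sum_mem (fun i _ => (hw i).le) hw1 (fun i _ => ?_)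
      apply subset_convexHull
      simp
  have hcard : Fintype.card ι = n + 1 := le_antisymm h1 h2
  let f : Fin (n + 1) ≃ ι := (Fintype.equivFinOfCardEq hcard).symm
  choose e he using fun i : Fin (n + 1) => hz (Set.mem_range_self (f i))
  refine ⟨e, det_ne_zero_of_affineIndependent ?_, fun i => w (f i), fun i => (hw _).le,
    comb_of ?_ ?_⟩
  · have h3 : (fun i => toPt (e i)) = z ∘ f := funext he
    rw [h3]
    exact hind.comp_embedding f.toEmbedding
  · rw [← hw1]
    exact f.sum_comp w
  · rw [← hwx, ← f.sum_comp (fun i => w i • z i)]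
    exact Finset.sum_congr rfl (fun i _ => by rw [he])

theorem pos_of_gen {x : Fin n → ℝ} (hg : GenPos n (Set.range (toPt : V n → Fin n → ℝ)) x)
    {e : Fin (n + 1) → V n} {c : Fin (n + 1) → ℝ} (hc : ∀ i, 0 ≤ c i)
    (hcx : ∑ i, c i • hat (e i) = lift x) (i : Fin (n + 1)) : 0 < c i := by
  classical
  rcases (hc i).lt_or_eq with h | h
  · exact h
  · exfalso
    refine hg ((Finset.univ.erase i).image fun k => toPt (e k)) ?_ ?_ ?_
    · intro y hy
      rw [Finset.mem_coe, Finset.mem_image] at hy
      obtain ⟨k, -, rfl⟩ := hy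
      exact Set.mem_range_self _
    · refine Finset.card_image_le.trans ?_
      rw [Finset.card_erase_of_mem (Finset.mem_univ i), Finset.card_univ, Fintype.card_fin]
      omega
    · have h1 := comb_sum hcx
      have h2 := comb_pt hcx
      rw [← Finset.add_sum_erase _ _ (Finset.mem_univ i), ← h, zero_add] at h1
      rw [← Finset.add_sum_erase _ _ (Finset.mem_univ i), ← h, zero_smul, zero_add] at h2
      rw [← h2]
      refine (convex_convexHull ℝ _).sum_mem (fun k _ => hc k) h1 (fun k hk => ?_)
      apply subset_convexHull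
      rw [Finset.mem_coe, Finset.mem_image]
      exact ⟨k, hk, rfl⟩

theorem pivot (g : V n → ℝ) {x : Fin n → ℝ} {e : Fin (n + 1) → V n} (he : (M e).det ≠ 0)
    {c : Fin (n + 1) → ℝ} (hc : ∀ i, 0 < c i) (hcx : ∑ i, c i • hat (e i) = lift x) {u : V n}
    (hu : hat u ⬝ᵥ zed g e < g u) :
    ∃ e' : Fin (n + 1) → V n, (M e').det ≠ 0 ∧ (∃ c' : Fin (n + 1) → ℝ, (∀ i, 0 ≤ c' i) ∧
      ∑ i, c' i • hat (e' i) = lift x) ∧ lift x ⬝ᵥ zed g e < lift x ⬝ᵥ zed g e' := by
  classical
  obtain ⟨a, ha⟩ := exists_comb he (hat u)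
  have ha1 : ∑ i, a i = 1 := comb_sum (x := toPt u) ha
  have hne : (Finset.univ.filter fun i => 0 < a i).Nonempty := by
    by_contra hcon
    rw [Finset.not_nonempty_iff_eq_empty, Finset.filter_eq_empty_iff] at hcon
    have h1 : ∑ i, a i ≤ 0 := Finset.sum_nonpos fun i hi => not_lt.1 (hcon hi)
    linarith
  obtain ⟨i0, hi0, hmin⟩ := Finset.exists_min_image _ (fun i => c i / a i) hne
  have ha0 : 0 < a i0 := (Finset.mem_filter.1 hi0).2
  set ε : ℝ := c i0 / a i0 with hε
  have hε0 : 0 < ε := div_pos (hc i0) ha0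
  set e' : Fin (n + 1) → V n := Function.update e i0 u with he'
  have hM : M e' = (M e).updateRow i0 (∑ k, a k • M e k) := by
    have h1 : ∑ k, a k • M e k = hat u := ha
    rw [h1]
    ext i j
    by_cases h : i = i0
    · subst h
      rw [Matrix.updateRow_self, M_apply, he', Function.update_self]
    · rw [Matrix.updateRow_ne h, M_apply, he', Function.update_of_ne h, M_apply]
  have hdet : (M e').det ≠ 0 := by
    rw [hM, Matrix.det_updateRow_sum, smul_eq_mul]
    exact mul_ne_zero ha0.ne' he
  let c' : Fin (n + 1) → ℝ := fun i => if i = i0 then ε else c i - ε * a i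
  have hsum : ∀ f : Fin (n + 1) → ℝ, ∀ fu : ℝ,
      ∑ i, c' i * (Function.update f i0 fu) i = ∑ i, c i * f i + ε * (fu - ∑ i, a i * f i) := by
    intro f fu
    rw [← Finset.add_sum_erase _ _ (Finset.mem_univ i0)]
    rw [← Finset.add_sum_erase _ (fun i => c i * f i) (Finset.mem_univ i0)]
    rw [← Finset.add_sum_erase _ (fun i => a i * f i) (Finset.mem_univ i0)]
    have h1 : ∑ i ∈ Finset.univ.erase i0, c' i * (Function.update f i0 fu) i =
        ∑ i ∈ Finset.univ.erase i0, (c i * f i - ε * (a i * f i)) := by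
      refine Finset.sum_congr rfl fun i hi => ?_
      have hi' := Finset.ne_of_mem_erase hi
      rw [Function.update_of_ne hi']
      simp only [c', if_neg hi']
      ring
    rw [h1, Finset.sum_sub_distrib, ← Finset.mul_sum, Function.update_self]
    have h2 : c' i0 = ε := by simp [c']
    have h3 : ε * a i0 = c i0 := by rw [hε]; field_simp
    rw [h2]
    linear_combination f i0 * h3
  have hcomb : ∑ i, c' i • hat (e' i) = lift x := by
    funext j
    have h1 := congrFun hcx j
    have h2 := congrFun ha j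
    rw [Finset.sum_apply] at h1 h2 ⊢
    simp only [Pi.smul_apply, smul_eq_mul] at h1 h2 ⊢
    have h3 := hsum (fun i => hat (e i) j) (hat u j)
    have h4 : ∀ i, hat (e' i) j = (Function.update (fun i => hat (e i) j) i0 (hat u j)) i := by
      intro i
      by_cases h : i = i0
      · subst h
        rw [Function.update_self, he', Function.update_self]
      · rw [Function.update_of_ne h, he', Function.update_of_ne h]
    rw [← h1]
    have h5 : ∑ i, c' i * hat (e' i) j =
        ∑ i, c' i * (Function.update (fun i => hat (e i) j) i0 (hat u j)) i :=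
      Finset.sum_congr rfl fun i _ => by rw [h4]
    rw [h5, h3, h2]
    ring
  refine ⟨e', hdet, ⟨c', ?_, hcomb⟩, ?_⟩
  · intro i
    by_cases h : i = i0
    · simp only [c', if_pos h]
      exact hε0.le
    · simp only [c', if_neg h]
      rcases le_or_gt (a i) 0 with hai | hai
      · have := mul_nonneg hε0.le (neg_nonneg.2 hai)
        have := hc i
        nlinarith
      · have h1 : ε ≤ c i / a i := hmin i (Finset.mem_filter.2 ⟨Finset.mem_univ _, hai⟩)
        have h2 : ε * a i ≤ c i := by
          rwa [le_div_iff₀ hai] at h1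
        linarith
  · have h1 : lift x ⬝ᵥ zed g e = ∑ i, c i * g (e i) := by
      rw [← hcx, comb_dot]
      exact Finset.sum_congr rfl fun i _ => by rw [zed_spec he]
    have h2 : lift x ⬝ᵥ zed g e' = ∑ i, c' i * g (e' i) := by
      rw [← hcomb, comb_dot]
      exact Finset.sum_congr rfl fun i _ => by rw [zed_spec hdet]
    have h3 : hat u ⬝ᵥ zed g e = ∑ i, a i * g (e i) := by
      rw [← ha, comb_dot]
      exact Finset.sum_congr rfl fun i _ => by rw [zed_spec he]
    have h4 := hsum (fun i => g (e i)) (g u)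
    have h5 : ∑ i, c' i * g (e' i) =
        ∑ i, c' i * (Function.update (fun i => g (e i)) i0 (g u)) i := by
      refine Finset.sum_congr rfl fun i _ => ?_
      by_cases h : i = i0
      · subst h
        rw [Function.update_self, he', Function.update_self]
      · rw [Function.update_of_ne h, he', Function.update_of_ne h]
    rw [h1, h2, h5, h4]
    rw [h3] at hu
    have := mul_pos hε0 (sub_pos.2 hu)
    linarith

theorem exists_good (g : V n → ℝ) {x : Fin n → ℝ} (hx : x ∈ Set.Icc (0 : Fin n → ℝ) 1)
    (hg : GenPos n (Set.range (toPt : V n → Fin n → ℝ)) x) :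
    ∃ e : Fin (n + 1) → V n, Good g e ∧ ∃ c : Fin (n + 1) → ℝ, (∀ i, 0 ≤ c i) ∧
      ∑ i, c i • hat (e i) = lift x := by
  classical
  let E : Finset (Fin (n + 1) → V n) := Finset.univ.filter fun e => (M e).det ≠ 0 ∧
    ∃ c : Fin (n + 1) → ℝ, (∀ i, 0 ≤ c i) ∧ ∑ i, c i • hat (e i) = lift x
  have hE : E.Nonempty := by
    obtain ⟨e, he, hc⟩ := exists_start hx hg
    exact ⟨e, Finset.mem_filter.2 ⟨Finset.mem_univ _, he, hc⟩⟩
  obtain ⟨e, heE, hmax⟩ := Finset.exists_max_image E (fun e => lift x ⬝ᵥ zed g e) hE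
  obtain ⟨-, he, c, hc, hcx⟩ := Finset.mem_filter.1 heE
  refine ⟨e, ⟨he, ?_⟩, c, hc, hcx⟩
  intro u
  by_contra hu
  push Not at hu
  obtain ⟨e', he', hc', hlt⟩ := pivot g he (pos_of_gen hg hc hcx) hcx hu
  exact absurd (hmax e' (Finset.mem_filter.2 ⟨Finset.mem_univ _, he', hc'⟩)) (not_le.2 hlt)

end Pool.Agent.Lib.MP_727085_co.Rh
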