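import Pool.Agent.Lib.MP_727085_co.Defs
import Pool.Agent.Lib.MP_727085_co.Sym

set_option autoImplicit false

/-!
# Regular triangulations of the cube with random heights: definitions and linear algebra
-/

namespace Pool.Agent.Lib.MP_727085_co.Rh

open Pool.Agent.Lib.MP_727085_co Matrix MeasureTheory
open scoped Real

variable {n : ℕ}

/-- The lifted vertex `(1, u)`. -/
def hat (u : V n) : Fin (n + 1) → ℝ := Fin.cons 1 (toPt u)

/-- The matrix of a tuple of vertices: row `i` is `(1, e i)`. -/
def M (e : Fin (n + 1) → V n) : Matrix (Fin (n + 1)) (Fin (n + 1)) ℝ := Matrix.of fun i => hat (e i)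

/-- The coefficient vector of the affine function which interpolates the heights `g` on `e`. -/
noncomputable def zed (g : V n → ℝ) (e : Fin (n + 1) → V n) : Fin (n + 1) → ℝ :=
  (M e)⁻¹ *ᵥ fun i => g (e i)

/-- The tuple `e` is (affinely independent and) a simplex of the regular subdivision with
heights `g`: the affine function interpolating `g` on `e` majorises `g`. -/
def Good (g : V n → ℝ) (e : Fin (n + 1) → V n) : Prop :=
  (M e).det ≠ 0 ∧ ∀ u, g u ≤ hat u ⬝ᵥ zed g e

/-- Generic heights. -/
def Gen (g : V n → ℝ) : Prop :=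
  ∀ e : Fin (n + 1) → V n, (M e).det ≠ 0 → ∀ u, u ∉ Set.range e → g u ≠ hat u ⬝ᵥ zed g e

open Classical in
/-- The vertex set of a tuple. -/
noncomputable def ver (e : Fin (n + 1) → V n) : Finset (Fin n → ℝ) :=
  Finset.univ.image fun i => toPt (e i)

open Classical in
/-- The tuples of the regular subdivision. -/
noncomputable def good (g : V n → ℝ) : Finset (Fin (n + 1) → V n) :=
  Finset.univ.filter fun e => Good g e

open Classical in
/-- The regular subdivision. -/
noncomputable def Tg (g : V n → ℝ) : Finset (Finset (Fin n → ℝ)) := (good g).image ver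

/-- The Gumbel density. -/
noncomputable def gden (x : ℝ) : ℝ := Real.exp (-x - Real.exp (-x))

/-- The Gumbel distribution. -/
noncomputable def gam : Measure ℝ := volume.withDensity fun x => ENNReal.ofReal (gden x)

/-- Independent Gumbel heights on the vertices. -/
noncomputable def mu (n : ℕ) : Measure (V n → ℝ) := Measure.pi fun _ => gam

/-- The weight of a vertex for the affine function `z`. -/
noncomputable def wt (z : Fin (n + 1) → ℝ) (u : V n) : ℝ := Real.exp (-(hat u ⬝ᵥ z))

/-- The total weight. -/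
noncomputable def S (z : Fin (n + 1) → ℝ) : ℝ := ∑ u : V n, wt z u

/-- The lifted point `(1, x)`. -/
def lift (x : Fin n → ℝ) : Fin (n + 1) → ℝ := Fin.cons 1 x

theorem hat_zero (u : V n) : hat u 0 = 1 := rfl

theorem hat_succ (u : V n) (j : Fin n) : hat u j.succ = toPt u j := rfl

theorem lift_zero (x : Fin n → ℝ) : lift x 0 = 1 := rfl

theorem lift_succ (x : Fin n → ℝ) (j : Fin n) : lift x j.succ = x j := rfl

theorem hat_eq (u : V n) : hat u = lift (toPt u) := rfl

theorem M_apply (e : Fin (n + 1) → V n) (i j : Fin (n + 1)) : M e i j = hat (e i) j := rfl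

theorem toPt_injective : Function.Injective (toPt : V n → Fin n → ℝ) := by
  intro a b h
  funext j
  have h1 := congrFun h j
  simp only [toPt] at h1
  by_cases ha : a j = true <;> by_cases hb : b j = true <;> simp_all

theorem hat_injective : Function.Injective (hat : V n → Fin (n + 1) → ℝ) := by
  intro a b h
  apply toPt_injective
  funext j
  exact congrFun h j.succ

theorem mulVec_M (e : Fin (n + 1) → V n) (z : Fin (n + 1) → ℝ) (i : Fin (n + 1)) :
    (M e *ᵥ z) i = hat (e i) ⬝ᵥ z := rfl

/-- The affine function interpolates. -/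
theorem zed_spec {e : Fin (n + 1) → V n} (h : (M e).det ≠ 0) (g : V n → ℝ) (i : Fin (n + 1)) :
    hat (e i) ⬝ᵥ zed g e = g (e i) := by
  rw [← mulVec_M, zed, Matrix.mulVec_mulVec, Matrix.mul_nonsing_inv _ h.isUnit, Matrix.one_mulVec]

/-- Uniqueness of the interpolation. -/
theorem zed_unique {e : Fin (n + 1) → V n} (h : (M e).det ≠ 0) (g : V n → ℝ)
    (z : Fin (n + 1) → ℝ) (hz : ∀ i, hat (e i) ⬝ᵥ z = g (e i)) : zed g e = z := by
  have h1 : (fun i => g (e i)) = M e *ᵥ z := by
    funext i
    rw [mulVec_M, hz]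
  rw [zed, h1, Matrix.mulVec_mulVec, Matrix.nonsing_inv_mul _ h.isUnit, Matrix.one_mulVec]

theorem injective_of_det {e : Fin (n + 1) → V n} (h : (M e).det ≠ 0) : Function.Injective e := by
  intro i j hij
  by_contra hne
  apply h
  apply Matrix.det_zero_of_row_eq hne
  funext k
  simp only [M_apply, hij]

/-- Every vector is a combination of the rows. -/
theorem exists_comb {e : Fin (n + 1) → V n} (h : (M e).det ≠ 0) (w : Fin (n + 1) → ℝ) :
    ∃ c : Fin (n + 1) → ℝ, ∑ i, c i • hat (e i) = w := by
  refine ⟨w ᵥ* (M e)⁻¹, ?_⟩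
  have h1 : (w ᵥ* (M e)⁻¹) ᵥ* M e = w := by
    rw [Matrix.vecMul_vecMul, Matrix.nonsing_inv_mul _ h.isUnit, Matrix.vecMul_one]
  funext j
  rw [Finset.sum_apply]
  have h2 := congrFun h1 j
  rw [← h2]
  simp only [Matrix.vecMul, dotProduct, Pi.smul_apply, smul_eq_mul, M_apply]

/-- Uniqueness of the coefficients. -/
theorem comb_unique {e : Fin (n + 1) → V n} (h : (M e).det ≠ 0) {c c' : Fin (n + 1) → ℝ}
    (hc : ∑ i, c i • hat (e i) = ∑ i, c' i • hat (e i)) : c = c' := by
  have h0 : ∀ c : Fin (n + 1) → ℝ, ∑ i, c i • hat (e i) = c ᵥ* M e := by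
    intro c
    funext j
    rw [Finset.sum_apply]
    simp only [Matrix.vecMul, dotProduct, Pi.smul_apply, smul_eq_mul, M_apply]
  rw [h0, h0] at hc
  have h2 := congrArg (fun v => v ᵥ* (M e)⁻¹) hc
  simp only [Matrix.vecMul_vecMul, Matrix.mul_nonsing_inv _ h.isUnit, Matrix.vecMul_one] at h2
  exact h2

/-- The value at a combination. -/
theorem comb_dot (e : Fin (n + 1) → V n) (c z : Fin (n + 1) → ℝ) :
    (∑ i, c i • hat (e i)) ⬝ᵥ z = ∑ i, c i * (hat (e i) ⬝ᵥ z) := by
  rw [sum_dotProduct]
  exact Finset.sum_congr rfl fun i _ => by rw [smul_dotProduct, smul_eq_mul]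

/-- The first coordinate of a combination. -/
theorem comb_sum {e : Fin (n + 1) → V n} {c : Fin (n + 1) → ℝ} {x : Fin n → ℝ}
    (hc : ∑ i, c i • hat (e i) = lift x) : ∑ i, c i = 1 := by
  have h1 := congrFun hc 0
  rw [Finset.sum_apply] at h1
  simpa [hat_zero, lift_zero] using h1

/-- The other coordinates of a combination. -/
theorem comb_pt {e : Fin (n + 1) → V n} {c : Fin (n + 1) → ℝ} {x : Fin n → ℝ}
    (hc : ∑ i, c i • hat (e i) = lift x) : ∑ i, c i • toPt (e i) = x := by
  funext j
  have h1 := congrFun hc j.succ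
  rw [Finset.sum_apply] at h1 ⊢
  simpa [hat_succ, lift_succ] using h1

theorem comb_of {e : Fin (n + 1) → V n} {c : Fin (n + 1) → ℝ} {x : Fin n → ℝ}
    (h1 : ∑ i, c i = 1) (h2 : ∑ i, c i • toPt (e i) = x) : ∑ i, c i • hat (e i) = lift x := by
  funext j
  rw [Finset.sum_apply]
  refine Fin.cases ?_ (fun j => ?_) j
  · simpa [hat_zero, lift_zero] using h1
  · have h3 := congrFun h2 j
    rw [Finset.sum_apply] at h3
    simpa [hat_succ, lift_succ] using h3

theorem coe_ver (e : Fin (n + 1) → V n) :
    (ver e : Set (Fin n → ℝ)) = Set.range fun i => toPt (e i) := by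
  classical
  simp [ver]

theorem mem_ver {e : Fin (n + 1) → V n} {x : Fin n → ℝ} : x ∈ ver e ↔ ∃ i, toPt (e i) = x := by
  classical
  simp [ver]

theorem card_ver {e : Fin (n + 1) → V n} (h : (M e).det ≠ 0) : (ver e).card = n + 1 := by
  classical
  have h1 : Function.Injective fun i => toPt (e i) := toPt_injective.comp (injective_of_det h)
  rw [ver, Finset.card_image_of_injective _ h1, Finset.card_univ, Fintype.card_fin]

theorem affineIndependent_of_det {e : Fin (n + 1) → V n} (h : (M e).det ≠ 0) :
    AffineIndependent ℝ fun i => toPt (e i) := by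
  rw [affineIndependent_iff_of_fintype]
  intro w hw0 hw i
  rw [Finset.weightedVSub_eq_weightedVSubOfPoint_of_sum_eq_zero _ w _ hw0 0] at hw
  simp only [Finset.weightedVSubOfPoint_apply, vsub_eq_sub, sub_zero] at hw
  have h1 : ∑ i, w i • hat (e i) = ∑ i : Fin (n + 1), (0 : Fin (n + 1) → ℝ) i • hat (e i) := by
    simp only [Pi.zero_apply, zero_smul, Finset.sum_const_zero]
    funext j
    rw [Finset.sum_apply]
    refine Fin.cases ?_ (fun j => ?_) j
    · simpa [hat_zero] using hw0
    · have h3 := congrFun hw j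
      rw [Finset.sum_apply] at h3
      simpa [hat_succ] using h3
  exact congrFun (comb_unique h h1) i

theorem det_ne_zero_of_affineIndependent {e : Fin (n + 1) → V n}
    (h : AffineIndependent ℝ fun i => toPt (e i)) : (M e).det ≠ 0 := by
  intro h0
  obtain ⟨w, hw, hw0⟩ := Matrix.exists_vecMul_eq_zero_iff.2 h0
  apply hw
  have h1 : ∀ j, ∑ i, w i * hat (e i) j = 0 := by
    intro j
    have := congrFun hw0 j
    simpa only [Matrix.vecMul, dotProduct, M_apply, Pi.zero_apply] using this
  have h2 : ∑ i, w i = 0 := by simpa [hat_zero] using h1 0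
  funext i
  rw [affineIndependent_iff_of_fintype] at h
  refine h w h2 ?_ i
  rw [Finset.weightedVSub_eq_weightedVSubOfPoint_of_sum_eq_zero _ w _ h2 0]
  simp only [Finset.weightedVSubOfPoint_apply, vsub_eq_sub, sub_zero]
  funext j
  rw [Finset.sum_apply]
  simpa [hat_succ] using h1 j.succ

theorem wt_pos (z : Fin (n + 1) → ℝ) (u : V n) : 0 < wt z u := Real.exp_pos _

theorem gden_pos (x : ℝ) : 0 < gden x := Real.exp_pos _

theorem gden_eq (x : ℝ) : gden x = Real.exp (-x) * Real.exp (-Real.exp (-x)) := by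
  rw [gden, ← Real.exp_add, sub_eq_add_neg]

theorem continuous_gden : Continuous gden := by
  unfold gden
  fun_prop

end Pool.Agent.Lib.MP_727085_co.Rh
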