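import Pool.Agent.Lib.MP_727085_co.Rh.Hull

set_option autoImplicit false

/-!
# Two simplices of a regular subdivision with generic heights meet in a common face

PROOF. Let `x` be in both hulls, with coefficients `c` for `e` and `c'` for `e'` (`mem_hull`), and
`z = zed g e`, `z' = zed g e'`. Then `lift x ⬝ᵥ z' = ∑ c i * (hat (e i) ⬝ᵥ z') ≥ ∑ c i * g (e i) =
lift x ⬝ᵥ z` (`comb_dot`, `zed_spec`, `Good`), and symmetrically `lift x ⬝ᵥ z ≥ lift x ⬝ᵥ z'`. So
`∑ c i * (hat (e i) ⬝ᵥ z' - g (e i)) = 0` with nonnegative terms; if `c i > 0` then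
`g (e i) = hat (e i) ⬝ᵥ z'`, and `Gen` gives `e i ∈ Set.range e'`. Hence the vertices with positive
coefficient are in both vertex sets; `mem_hull_sub`.
-/

namespace Pool.Agent.Lib.MP_727085_co.Rh

open Pool.Agent.Lib.MP_727085_co Matrix MeasureTheory
open scoped Real

variable {n : ℕ}

theorem value_le {g : V n → ℝ} {e e' : Fin (n + 1) → V n} (he : Good g e)
    (he' : Good g e') {x : Fin n → ℝ} {c : Fin (n + 1) → ℝ} (hc : ∀ i, 0 ≤ c i)
    (hcx : ∑ i, c i • hat (e i) = lift x) : lift x ⬝ᵥ zed g e ≤ lift x ⬝ᵥ zed g e' := by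
  rw [← hcx, comb_dot, comb_dot]
  refine Finset.sum_le_sum fun i _ => mul_le_mul_of_nonneg_left ?_ (hc i)
  rw [zed_spec he.1]
  exact he'.2 _

theorem inter_subset {g : V n → ℝ} (hg : Gen g) {e e' : Fin (n + 1) → V n} (he : Good g e)
    (he' : Good g e') :
    convexHull ℝ (ver e : Set (Fin n → ℝ)) ∩ convexHull ℝ (ver e' : Set (Fin n → ℝ)) ⊆
      convexHull ℝ ((ver e : Set (Fin n → ℝ)) ∩ (ver e' : Set (Fin n → ℝ))) := by
  rintro x ⟨hx, hx'⟩
  obtain ⟨c, hc, hcx⟩ := (mem_hull e x).1 hx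
  obtain ⟨c', hc', hcx'⟩ := (mem_hull e' x).1 hx'
  have h1 := value_le he he' hc hcx
  have h2 := value_le he' he hc' hcx'
  have h3 : lift x ⬝ᵥ zed g e' = lift x ⬝ᵥ zed g e := le_antisymm h2 h1
  have h4 : ∑ i, c i * (hat (e i) ⬝ᵥ zed g e' - g (e i)) = 0 := by
    simp only [mul_sub, Finset.sum_sub_distrib]
    rw [← comb_dot, hcx, h3, ← hcx, comb_dot, sub_eq_zero]
    exact Finset.sum_congr rfl fun i _ => by rw [zed_spec he.1]
  have h5 : ∀ i ∈ Finset.univ, 0 ≤ c i * (hat (e i) ⬝ᵥ zed g e' - g (e i)) := fun i _ =>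
    mul_nonneg (hc i) (sub_nonneg.2 (he'.2 _))
  have h6 := (Finset.sum_eq_zero_iff_of_nonneg h5).1 h4
  refine mem_hull_sub hc hcx fun i hi => ?_
  have h7 : hat (e i) ⬝ᵥ zed g e' - g (e i) = 0 := by
    rcases mul_eq_zero.1 (h6 i (Finset.mem_univ i)) with h | h
    · exact absurd h hi.ne'
    · exact h
  have h8 : e i ∈ Set.range e' := by
    by_contra hcon
    exact hg e' he'.1 (e i) hcon (sub_eq_zero.1 h7).symm
  obtain ⟨k, hk⟩ := h8
  refine ⟨?_, ?_⟩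
  · exact mem_ver.2 ⟨i, rfl⟩
  · exact mem_ver.2 ⟨k, by rw [hk]⟩

end Pool.Agent.Lib.MP_727085_co.Rh
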