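import Pool.Agent.Lib.MP_727085_co.Rh.Cov1
import Pool.Agent.Lib.MP_727085_co.Rh.FF
import Pool.Agent.Lib.MP_727085_co.Cover

set_option autoImplicit false

/-!
# The regular subdivision with generic heights is a triangulation

PROOF. `cover`: if `p` is in the cube but not in the union `K` of the hulls, which is closed (finite
union of compact sets), then `exists_generic` (Cover.lean) with `L` = the finset of all `toPt u` and
`U = Kᶜ` gives a point `q ∈ U` in general position in the cube; `exists_good` puts `q` in `K`.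

`dissection`: `card_ver`; independence from `affineIndependent_of_det` (the finset `ver e` is the
range; `AffineIndependent.range` or comp with an equivalence); union: `cover` and the hull of points
of the cube is in the cube (`convexHull_min`, `convex_Icc`); interiors: for `s ≠ t` of card `n + 1` the
intersection has card `≤ n`, so `interior ∩ interior` is an open set inside
`convexHull (s ∩ t)` (`inter_subset`), which is null by `hull_null` (Cover.lean); an open null set
is empty (`IsOpen.measure_pos` / `IsOpen.measure_eq_zero_iff`).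

`face_to_face`: `inter_subset` and `convexHull_mono` twice.
`regular`: `z = zed g e`.
-/

namespace Pool.Agent.Lib.MP_727085_co.Rh

open Pool.Agent.Lib.MP_727085_co Matrix MeasureTheory
open scoped Real

variable {n : ℕ}

theorem mem_Tg {g : V n → ℝ} {s : Finset (Fin n → ℝ)} :
    s ∈ Tg g ↔ ∃ e : Fin (n + 1) → V n, Good g e ∧ ver e = s := by
  classical
  unfold Tg good
  simp only [Finset.mem_image, Finset.mem_filter, Finset.mem_univ, true_and]

theorem toPt_mem_Icc (u : V n) : (toPt u : Fin n → ℝ) ∈ Set.Icc (0 : Fin n → ℝ) 1 := by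
  refine ⟨fun j => ?_, fun j => ?_⟩
  · simp only [toPt, Pi.zero_apply]
    split_ifs <;> norm_num
  · simp only [toPt, Pi.one_apply]
    split_ifs <;> norm_num

theorem cover (g : V n → ℝ) :
    Set.Icc (0 : Fin n → ℝ) 1 ⊆ ⋃ s ∈ Tg g, convexHull ℝ (s : Set (Fin n → ℝ)) := by
  classical
  intro p hp
  by_contra hcon
  have hclosed : IsClosed (⋃ s ∈ Tg g, convexHull ℝ (s : Set (Fin n → ℝ))) := by
    apply isClosed_biUnion_finset
    intro s _
    exact (s.finite_toSet.isCompact_convexHull (𝕜 := ℝ)).isClosed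
  obtain ⟨q, hqU, hq1, hq2⟩ := exists_generic (Finset.univ.image (toPt : V n → Fin n → ℝ)) p hp
    (⋃ s ∈ Tg g, convexHull ℝ (s : Set (Fin n → ℝ)))ᶜ hclosed.isOpen_compl hcon
  have hL : ((Finset.univ.image (toPt : V n → Fin n → ℝ) : Finset (Fin n → ℝ)) :
      Set (Fin n → ℝ)) = Set.range (toPt : V n → Fin n → ℝ) := by
    simp
  rw [hL] at hq2
  have hqI : q ∈ Set.Icc (0 : Fin n → ℝ) 1 := ⟨fun j => (hq1 j).1.le, fun j => (hq1 j).2.le⟩
  obtain ⟨e, he, c, hc, hcx⟩ := exists_good g hqI hq2
  apply hqU
  refine Set.mem_iUnion₂.2 ⟨ver e, mem_Tg.2 ⟨e, he, rfl⟩, ?_⟩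
  exact (mem_hull e q).2 ⟨c, hc, hcx⟩

theorem ver_subset_Icc (e : Fin (n + 1) → V n) :
    (ver e : Set (Fin n → ℝ)) ⊆ Set.Icc (0 : Fin n → ℝ) 1 := by
  intro x hx
  obtain ⟨i, rfl⟩ := mem_ver.1 (Finset.mem_coe.1 hx)
  exact toPt_mem_Icc (e i)

theorem dissection {g : V n → ℝ} (hg : Gen g) : IsDissection n (Tg g) := by
  classical
  refine ⟨?_, ?_, ?_, ?_⟩
  · intro s hs
    obtain ⟨e, he, rfl⟩ := mem_Tg.1 hs
    exact card_ver he.1
  · intro s hs
    obtain ⟨e, he, rfl⟩ := mem_Tg.1 hs
    have h := (affineIndependent_of_det he.1).range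
    rw [← coe_ver] at h
    exact h
  · apply Set.Subset.antisymm _ (cover g)
    apply Set.iUnion₂_subset
    intro s hs
    obtain ⟨e, he, rfl⟩ := mem_Tg.1 hs
    exact convexHull_min (ver_subset_Icc e) (convex_Icc 0 1)
  · intro s hs t ht hst
    obtain ⟨e, he, rfl⟩ := mem_Tg.1 hs
    obtain ⟨e', he', rfl⟩ := mem_Tg.1 ht
    rw [Set.disjoint_iff_inter_eq_empty]
    have hopen : IsOpen (interior (convexHull ℝ (ver e : Set (Fin n → ℝ))) ∩
        interior (convexHull ℝ (ver e' : Set (Fin n → ℝ)))) :=
      isOpen_interior.inter isOpen_interior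
    rw [← hopen.measure_eq_zero_iff (volume : Measure (Fin n → ℝ))]
    have hcard : (ver e ∩ ver e').card ≤ n := by
      by_contra hcon
      rw [not_le] at hcon
      have h1 := card_ver he.1
      have h2 := card_ver he'.1
      have h3 : ver e ∩ ver e' = ver e :=
        Finset.eq_of_subset_of_card_le Finset.inter_subset_left (by omega)
      have h4 : ver e ∩ ver e' = ver e' :=
        Finset.eq_of_subset_of_card_le Finset.inter_subset_right (by omega)
      exact hst (h3.symm.trans h4)
    refine measure_mono_null ?_ (hull_null (ver e ∩ ver e') hcard)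
    rw [Finset.coe_inter]
    exact (Set.inter_subset_inter interior_subset interior_subset).trans (inter_subset hg he he')

theorem faceToFace {g : V n → ℝ} (hg : Gen g) : FaceToFace n (Tg g) := by
  intro s hs t ht
  obtain ⟨e, he, rfl⟩ := mem_Tg.1 hs
  obtain ⟨e', he', rfl⟩ := mem_Tg.1 ht
  apply Set.Subset.antisymm (inter_subset hg he he')
  exact Set.subset_inter (convexHull_mono Set.inter_subset_left)
    (convexHull_mono Set.inter_subset_right)

theorem cubeVertices (g : V n → ℝ) : CubeVertices n (Tg g) := by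
  intro s hs x hx j
  obtain ⟨e, he, rfl⟩ := mem_Tg.1 hs
  obtain ⟨i, rfl⟩ := mem_ver.1 hx
  simp only [toPt]
  split_ifs
  · exact Or.inr rfl
  · exact Or.inl rfl

/-- Each simplex is cut out by an affine function which agrees with the heights on its vertices and
is larger than the heights at the other vertices of the cube. -/
theorem regular {g : V n → ℝ} (hg : Gen g) : ∀ s ∈ Tg g, ∃ z : Fin (n + 1) → ℝ,
    (∀ u : V n, toPt u ∈ s → g u = hat u ⬝ᵥ z) ∧ (∀ u : V n, toPt u ∉ s → g u < hat u ⬝ᵥ z) := by
  intro s hs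
  obtain ⟨e, he, rfl⟩ := mem_Tg.1 hs
  refine ⟨zed g e, fun u hu => ?_, fun u hu => ?_⟩
  · obtain ⟨i, hi⟩ := mem_ver.1 hu
    have h1 : e i = u := toPt_injective hi
    rw [← h1, zed_spec he.1]
  · refine lt_of_le_of_ne (he.2 u) (hg e he.1 u ?_)
    rintro ⟨i, rfl⟩
    exact hu (mem_ver.2 ⟨i, rfl⟩)

end Pool.Agent.Lib.MP_727085_co.Rh
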