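import Mathlib

set_option autoImplicit false

/-!
# Two integrals
-/

namespace Pool.Agent.Lib.MP_727085_co.Rh

open MeasureTheory
open scoped Real ENNReal

theorem int_cosh : ∫⁻ y : ℝ, ENNReal.ofReal (1 / (2 * Real.cosh (y / 2))) = ENNReal.ofReal π := by
  have himg : (fun y : ℝ => Real.exp (y / 2)) '' Set.univ = Set.Ioi 0 := by
    ext x
    constructor
    · rintro ⟨y, -, rfl⟩
      exact Real.exp_pos _
    · intro hx
      refine ⟨2 * Real.log x, Set.mem_univ _, ?_⟩
      simp only
      rw [show 2 * Real.log x / 2 = Real.log x by ring, Real.exp_log hx]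
  have hd : ∀ y ∈ (Set.univ : Set ℝ),
      HasDerivWithinAt (fun y : ℝ => Real.exp (y / 2)) (Real.exp (y / 2) * (1 / 2)) Set.univ y := by
    intro y _
    exact (((hasDerivAt_id y).div_const 2).exp).hasDerivWithinAt
  have hinj : Set.InjOn (fun y : ℝ => Real.exp (y / 2)) Set.univ := by
    intro a _ b _ hab
    have := Real.exp_injective hab
    linarith
  have h1 := lintegral_image_eq_lintegral_abs_deriv_mul MeasurableSet.univ hd hinj
    (fun x : ℝ => ENNReal.ofReal (2 * (1 + x ^ 2)⁻¹))
  rw [himg] at h1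
  have h2 : ∫⁻ x in Set.Ioi (0 : ℝ), ENNReal.ofReal (2 * (1 + x ^ 2)⁻¹) = ENNReal.ofReal π := by
    rw [← ofReal_integral_eq_lintegral_ofReal]
    · rw [integral_const_mul, integral_Ioi_inv_one_add_sq]
      congr 1
      simp
      try ring
    · exact (integrable_inv_one_add_sq.const_mul 2).integrableOn
    · exact Filter.Eventually.of_forall fun x => by positivity
  rw [← h2, h1, setLIntegral_univ]
  apply lintegral_congr
  intro y
  have hp := Real.exp_pos (y / 2)
  rw [abs_of_nonneg (by positivity), ← ENNReal.ofReal_mul (by positivity)]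
  congr 1
  rw [Real.cosh_eq, Real.exp_neg]
  field_simp
  try ring

theorem int_gamma (m : ℕ) {Z : ℝ} (hZ : 0 < Z) :
    ∫⁻ t : ℝ, ENNReal.ofReal ((Real.exp (-t) * Z) ^ (m + 1) * Real.exp (-(Real.exp (-t) * Z))) =
      ENNReal.ofReal (m.factorial) := by
  have himg : (fun t : ℝ => Real.exp (-t) * Z) '' Set.univ = Set.Ioi 0 := by
    ext x
    constructor
    · rintro ⟨y, -, rfl⟩
      exact mul_pos (Real.exp_pos _) hZ
    · intro hx
      have hx' : 0 < x := hx
      refine ⟨-Real.log (x / Z), Set.mem_univ _, ?_⟩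
      simp only
      rw [neg_neg, Real.exp_log (div_pos hx' hZ)]
      field_simp
  have hd : ∀ t ∈ (Set.univ : Set ℝ),
      HasDerivWithinAt (fun t : ℝ => Real.exp (-t) * Z) (Real.exp (-t) * (-1) * Z) Set.univ t := by
    intro t _
    exact (((hasDerivAt_id t).neg.exp).mul_const Z).hasDerivWithinAt
  have hinj : Set.InjOn (fun t : ℝ => Real.exp (-t) * Z) Set.univ := by
    intro a _ b _ hab
    have h := Real.exp_injective (mul_right_cancel₀ hZ.ne' hab)
    linarith
  have h1 := lintegral_image_eq_lintegral_abs_deriv_mul MeasurableSet.univ hd hinj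
    (fun x : ℝ => ENNReal.ofReal (Real.exp (-x) * x ^ (((m : ℝ) + 1) - 1)))
  rw [himg] at h1
  have hm : (0 : ℝ) < (m : ℝ) + 1 := by positivity
  have h2 : ∫⁻ x in Set.Ioi (0 : ℝ), ENNReal.ofReal (Real.exp (-x) * x ^ (((m : ℝ) + 1) - 1)) =
      ENNReal.ofReal (m.factorial) := by
    rw [← Real.Gamma_nat_eq_factorial, Real.Gamma_eq_integral hm,
      ofReal_integral_eq_lintegral_ofReal]
    · exact Real.GammaIntegral_convergent hm
    · refine (ae_restrict_iff' measurableSet_Ioi).2 (Filter.Eventually.of_forall fun x hx => ?_)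
      have hx' : 0 < x := hx
      simp only [Pi.zero_apply]
      positivity
  rw [← h2, h1, setLIntegral_univ]
  apply lintegral_congr
  intro t
  have hp := Real.exp_pos (-t)
  have hq : 0 < Real.exp (-t) * Z := mul_pos hp hZ
  have ha : |Real.exp (-t) * (-1) * Z| = Real.exp (-t) * Z := by
    rw [show Real.exp (-t) * (-1) * Z = -(Real.exp (-t) * Z) by ring, abs_neg, abs_of_pos hq]
  rw [ha, ← ENNReal.ofReal_mul hq.le]
  congr 1
  rw [add_sub_cancel_right, Real.rpow_natCast, pow_succ]
  ring

end Pool.Agent.Lib.MP_727085_co.Rh
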