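import Mathlib

set_option autoImplicit false

/-!
# The lintegral of a product over a finite product of spaces

PROOF. For `ι = Fin n` by induction with `measurePreserving_piFinSuccAbove` (`i = 0`) and
`lintegral_prod_mul`, as in the Bochner version `MeasureTheory.integral_fin_nat_prod_eq_prod`
(Mathlib/MeasureTheory/Integral/Pi.lean); for general `ι` with `measurePreserving_piCongrLeft`, as
there. Also possible: `lintegral_prod_eq_prod_lintegral_of_indepFun` for probability measures only.
-/

namespace Pool.Agent.Lib.MP_727085_co.Rh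

open MeasureTheory
open scoped ENNReal

theorem lintegral_fin_prod {n : ℕ} (ν : Fin n → Measure ℝ) [∀ i, SigmaFinite (ν i)]
    (f : Fin n → ℝ → ℝ≥0∞) (hf : ∀ i, Measurable (f i)) :
    ∫⁻ w, ∏ i, f i (w i) ∂(Measure.pi ν) = ∏ i, ∫⁻ x, f i x ∂(ν i) := by
  induction n with
  | zero => simp
  | succ n ih =>
    have h1 := (measurePreserving_piFinSuccAbove ν 0).symm
    rw [← h1.lintegral_comp_emb (MeasurableEquiv.measurableEmbedding _)]
    simp_rw [MeasurableEquiv.piFinSuccAbove_symm_apply, Fin.insertNthEquiv,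
            Fin.prod_univ_succ, Fin.insertNth_zero, Equiv.coe_fn_mk, Fin.cons_succ,
            Fin.zero_succAbove, Fin.cons_zero]
    rw [← ih (fun i => ν i.succ) (fun i => f i.succ) (fun i => hf _)]
    exact lintegral_prod_mul (hf 0).aemeasurable
      (Finset.measurable_prod _ fun i _ => (hf _).comp (measurable_pi_apply i)).aemeasurable

theorem lintegral_pi_prod {ι : Type} [Fintype ι] (ν : ι → Measure ℝ) [∀ i, SigmaFinite (ν i)]
    (f : ι → ℝ → ℝ≥0∞) (hf : ∀ i, Measurable (f i)) :
    ∫⁻ w, ∏ i, f i (w i) ∂(Measure.pi ν) = ∏ i, ∫⁻ x, f i x ∂(ν i) := by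
  let e := (Fintype.equivFin ι).symm
  rw [← (measurePreserving_piCongrLeft ν e).lintegral_comp_emb
    (MeasurableEquiv.measurableEmbedding _)]
  simp_rw [← e.prod_comp, MeasurableEquiv.coe_piCongrLeft, Equiv.piCongrLeft_apply_apply]
  exact lintegral_fin_prod (fun i => ν (e i)) (fun i => f (e i)) fun i => hf _

end Pool.Agent.Lib.MP_727085_co.Rh
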