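import Pool.Agent.Lib.MP_727085_co.Rh.Prd
import Pool.Agent.Lib.MP_727085_co.Rh.Int
import Pool.Agent.Lib.MP_727085_co.Rh.Prodl

set_option autoImplicit false

/-!
# The total integral

PROOF. `volume_preserving_piFinSuccAbove (fun _ => ℝ) 0` and Tonelli (`lintegral_prod_symm'` or
`lintegral_prod_symm`): inner integral over `t = z 0` for fixed `y = (z (j+1))_j` with
`S z = exp (-t) * Z`, `Z = ∏ (1 + exp (-y j))` (`S_eq`) is `ofReal n!` (`int_gamma`), times
`∏ ofReal (1 / (2 cosh (y j / 2)))`, and `lintegral_pi_prod` with `int_cosh`.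
-/

namespace Pool.Agent.Lib.MP_727085_co.Rh

open Pool.Agent.Lib.MP_727085_co Matrix MeasureTheory
open scoped Real ENNReal

variable {n : ℕ}

theorem total_integral (n : ℕ) : ∫⁻ z : Fin (n + 1) → ℝ, ENNReal.ofReal (S z ^ (n + 1) *
    Real.exp (-(S z)) * ∏ j : Fin n, (1 / (2 * Real.cosh (z j.succ / 2)))) =
      ENNReal.ofReal (n.factorial * π ^ n) := by
  have h1 := (volume_preserving_piFinSuccAbove (fun _ : Fin (n + 1) => ℝ) 0).symm
  rw [← h1.lintegral_comp_emb (MeasurableEquiv.measurableEmbedding _)]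
  have hpos : ∀ y : Fin n → ℝ, 0 < ∏ j : Fin n, (1 + Real.exp (-y j)) := fun y =>
    Finset.prod_pos fun j _ => by positivity
  have hG : ∀ (y : Fin n → ℝ) (j : Fin n), 0 ≤ 1 / (2 * Real.cosh (y j / 2)) := fun y j => by
    have := Real.cosh_pos (y j / 2)
    positivity
  have h2 : ∀ p : ℝ × (Fin n → ℝ),
      ENNReal.ofReal (S ((MeasurableEquiv.piFinSuccAbove (fun _ : Fin (n + 1) => ℝ) 0).symm p)
        ^ (n + 1) * Real.exp (-(S ((MeasurableEquiv.piFinSuccAbove
          (fun _ : Fin (n + 1) => ℝ) 0).symm p))) *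
        ∏ j : Fin n, (1 / (2 * Real.cosh (((MeasurableEquiv.piFinSuccAbove
          (fun _ : Fin (n + 1) => ℝ) 0).symm p) j.succ / 2)))) =
      ENNReal.ofReal ((Real.exp (-p.1) * ∏ j : Fin n, (1 + Real.exp (-p.2 j))) ^ (n + 1) *
        Real.exp (-(Real.exp (-p.1) * ∏ j : Fin n, (1 + Real.exp (-p.2 j))))) *
        ∏ j : Fin n, ENNReal.ofReal (1 / (2 * Real.cosh (p.2 j / 2))) := by
    intro p
    have h3 : (MeasurableEquiv.piFinSuccAbove (fun _ : Fin (n + 1) => ℝ) 0).symm p =
        (Fin.cons p.1 p.2 : Fin (n + 1) → ℝ) := by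
      rw [MeasurableEquiv.piFinSuccAbove_symm_apply]
      simp only [Fin.insertNthEquiv, Fin.insertNth_zero, Equiv.coe_fn_mk]
      rfl
    rw [h3, S_eq, ENNReal.ofReal_mul, ENNReal.ofReal_prod_of_nonneg]
    · simp only [Fin.cons_zero, Fin.cons_succ]
    · intro j _
      exact hG _ j
    · have := hpos p.2
      simp only [Fin.cons_zero, Fin.cons_succ]
      positivity
  rw [lintegral_congr h2]
  have hm1 : Measurable fun p : ℝ × (Fin n → ℝ) => ENNReal.ofReal ((Real.exp (-p.1) *
      ∏ j : Fin n, (1 + Real.exp (-p.2 j))) ^ (n + 1) *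
        Real.exp (-(Real.exp (-p.1) * ∏ j : Fin n, (1 + Real.exp (-p.2 j))))) := by
    apply Measurable.ennreal_ofReal
    apply Continuous.measurable
    fun_prop
  have hm2 : Measurable fun y : Fin n → ℝ =>
      ∏ j : Fin n, ENNReal.ofReal (1 / (2 * Real.cosh (y j / 2))) := by
    apply Finset.measurable_prod
    intro j _
    apply Measurable.ennreal_ofReal
    apply Continuous.measurable
    have : ∀ y : Fin n → ℝ, 2 * Real.cosh (y j / 2) ≠ 0 := fun y => by
      have := Real.cosh_pos (y j / 2)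
      positivity
    have hc : Continuous fun y : Fin n → ℝ => 2 * Real.cosh (y j / 2) := by
      have := Real.continuous_cosh
      fun_prop
    exact continuous_const.div hc this
  have hv : (volume : Measure (ℝ × (Fin n → ℝ))) = (volume : Measure ℝ).prod volume := rfl
  have h4 : ∫⁻ p : ℝ × (Fin n → ℝ), ENNReal.ofReal ((Real.exp (-p.1) *
      ∏ j : Fin n, (1 + Real.exp (-p.2 j))) ^ (n + 1) *
        Real.exp (-(Real.exp (-p.1) * ∏ j : Fin n, (1 + Real.exp (-p.2 j))))) *
        ∏ j : Fin n, ENNReal.ofReal (1 / (2 * Real.cosh (p.2 j / 2))) ∂((volume : Measure ℝ).prod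
          (volume : Measure (Fin n → ℝ))) =
      ∫⁻ y : Fin n → ℝ, ENNReal.ofReal (n.factorial) *
        ∏ j : Fin n, ENNReal.ofReal (1 / (2 * Real.cosh (y j / 2))) := by
    have h7 := lintegral_prod_symm' (μ := (volume : Measure ℝ))
      (ν := (volume : Measure (Fin n → ℝ))) _ (hm1.mul (hm2.comp measurable_snd))
    refine (Eq.trans (by rfl) h7).trans ?_
    apply lintegral_congr
    intro y
    have h8 := lintegral_mul_const (μ := (volume : Measure ℝ))
      (∏ j : Fin n, ENNReal.ofReal (1 / (2 * Real.cosh (y j / 2))))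
      (hm1.comp (measurable_prodMk_right (y := y)))
    have h9 := int_gamma n (hpos y)
    rw [← h9]
    exact h8
  refine (Eq.trans (by rfl) h4).trans ?_
  rw [lintegral_const_mul _ hm2]
  have h5 : ∫⁻ y : Fin n → ℝ, ∏ j : Fin n, ENNReal.ofReal (1 / (2 * Real.cosh (y j / 2))) =
      ∏ _j : Fin n, ENNReal.ofReal π := by
    have h6 := lintegral_pi_prod (fun _ : Fin n => (volume : Measure ℝ))
      (fun _ x => ENNReal.ofReal (1 / (2 * Real.cosh (x / 2)))) (fun _ => by
        apply Measurable.ennreal_ofReal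
        apply Continuous.measurable
        have : ∀ x : ℝ, 2 * Real.cosh (x / 2) ≠ 0 := fun x => by
          have := Real.cosh_pos (x / 2)
          positivity
        have hc : Continuous fun x : ℝ => 2 * Real.cosh (x / 2) := by
          have := Real.continuous_cosh
          fun_prop
        exact continuous_const.div hc this)
    rw [int_cosh] at h6
    exact h6
  rw [h5, Finset.prod_const, Finset.card_univ, Fintype.card_fin,
    ENNReal.ofReal_mul (by positivity), ENNReal.ofReal_pow Real.pi_pos.le]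

end Pool.Agent.Lib.MP_727085_co.Rh
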