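import Pool.Agent.Lib.MP_727085_co.Rh.Defs
import Pool.Agent.Lib.MP_727085_co.Rh.Prodl

set_option autoImplicit false

/-!
# The Gumbel distribution

PROOF. `gam_Iic`: `withDensity_apply`, and the primitive of `gden` is `exp (-exp (-x))`, with limit
`0` at `-∞` (`gden x = exp (-x) * exp (-exp (-x))`). E.g. `integral_Iic_of_hasDerivAt_of_tendsto`
with integrability from `integrableOn_Iic_deriv_of_nonneg`-type lemmas
(Mathlib/MeasureTheory/Integral/IntegralEqImproper.lean), then `ofReal_integral_eq_lintegral_ofReal`.
`isProb`: let `x → ∞` in `gam_Iic` (`tendsto_measure_Iic_atTop`), or the same computation on `ℝ`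
(`integral_of_hasDerivAt_of_tendsto`).
`pi_gam`: `Measure.pi_eq`: on a measurable box both sides are the product of
`∫⁻ x in s i, ofReal (gden x)`; for the right-hand side use `withDensity_apply`,
`Measure.restrict_pi_pi` and the product formula for lintegrals of products. (I do not know a Mathlib
name for the lintegral product formula; the Bochner version is `integral_fintype_prod_eq_prod`, and the
functions are integrable: `Integrable.fintype_prod`. Or use induction / `lintegral_prod_mul`.)
-/

namespace Pool.Agent.Lib.MP_727085_co.Rh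

open Pool.Agent.Lib.MP_727085_co Matrix MeasureTheory
open scoped Real ENNReal

variable {n : ℕ}

theorem hasDerivAt_gcdf (x : ℝ) : HasDerivAt (fun y => Real.exp (-Real.exp (-y))) (gden x) x := by
  have h1 : HasDerivAt (fun y : ℝ => -y) (-1) x := (hasDerivAt_id x).neg
  have h2 := (h1.exp.neg).exp
  refine h2.congr_deriv ?_
  rw [gden_eq, Pi.neg_apply]
  ring

theorem tendsto_gcdf_bot :
    Filter.Tendsto (fun y => Real.exp (-Real.exp (-y))) Filter.atBot (nhds 0) :=
  Real.tendsto_exp_neg_atTop_nhds_zero.comp
    (Real.tendsto_exp_atTop.comp Filter.tendsto_neg_atBot_atTop)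

theorem tendsto_gcdf_top :
    Filter.Tendsto (fun y => Real.exp (-Real.exp (-y))) Filter.atTop (nhds 1) := by
  have h1 := Real.tendsto_exp_neg_atTop_nhds_zero.neg
  have h2 := (Real.continuous_exp.tendsto _).comp h1
  simpa [Function.comp_def] using h2

theorem lintegral_Ioc_gden {a b : ℝ} (hab : a ≤ b) :
    gam (Set.Ioc a b) =
      ENNReal.ofReal (Real.exp (-Real.exp (-b)) - Real.exp (-Real.exp (-a))) := by
  rw [gam, withDensity_apply _ measurableSet_Ioc,
    ← ofReal_integral_eq_lintegral_ofReal
      ((continuous_gden.integrableOn_Icc (a := a) (b := b)).mono_set Set.Ioc_subset_Icc_self)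
      (Filter.Eventually.of_forall fun x => (gden_pos x).le),
    ← intervalIntegral.integral_of_le hab,
    intervalIntegral.integral_eq_sub_of_hasDerivAt (fun x _ => hasDerivAt_gcdf x)
      (continuous_gden.intervalIntegrable a b)]

theorem gam_Iic (x : ℝ) : gam (Set.Iic x) = ENNReal.ofReal (Real.exp (-Real.exp (-x))) := by
  have h1 : Filter.Tendsto (fun k : ℕ => gam (Set.Ioc (x - k) x)) Filter.atTop
      (nhds (gam (⋃ k : ℕ, Set.Ioc (x - k) x))) := by
    apply tendsto_measure_iUnion_atTop
    intro k l hkl
    apply Set.Ioc_subset_Ioc_left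
    have : (k : ℝ) ≤ l := by exact_mod_cast hkl
    linarith
  have h2 : (⋃ k : ℕ, Set.Ioc (x - k) x) = Set.Iic x := by
    ext y
    simp only [Set.mem_iUnion, Set.mem_Ioc, Set.mem_Iic]
    constructor
    · rintro ⟨k, hk⟩
      exact hk.2
    · intro hy
      obtain ⟨k, hk⟩ := exists_nat_gt (x - y)
      exact ⟨k, by linarith, hy⟩
  rw [h2] at h1
  have h3 : Filter.Tendsto (fun k : ℕ => gam (Set.Ioc (x - k) x)) Filter.atTop
      (nhds (ENNReal.ofReal (Real.exp (-Real.exp (-x))))) := by
    have h4 : ∀ k : ℕ, gam (Set.Ioc (x - k) x) =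
        ENNReal.ofReal (Real.exp (-Real.exp (-x)) - Real.exp (-Real.exp (-(x - k)))) := fun k =>
      lintegral_Ioc_gden (by linarith [Nat.cast_nonneg (α := ℝ) k])
    simp only [h4]
    have h5 : Filter.Tendsto (fun k : ℕ => x - (k : ℝ)) Filter.atTop Filter.atBot := by
      have := Filter.tendsto_neg_atTop_atBot.comp (tendsto_natCast_atTop_atTop (R := ℝ))
      simpa [sub_eq_add_neg, Function.comp_def] using
        Filter.tendsto_atBot_add_const_left Filter.atTop x this
    have h6 := (tendsto_gcdf_bot.comp h5).const_sub (Real.exp (-Real.exp (-x)))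
    rw [sub_zero] at h6
    exact (ENNReal.continuous_ofReal.tendsto _).comp h6
  exact tendsto_nhds_unique h1 h3

instance isProb : IsProbabilityMeasure gam := by
  constructor
  have h1 := tendsto_measure_Iic_atTop gam
  have h2 : Filter.Tendsto (fun x : ℝ => gam (Set.Iic x)) Filter.atTop (nhds 1) := by
    simp only [gam_Iic]
    have := (ENNReal.continuous_ofReal.tendsto _).comp tendsto_gcdf_top
    rw [ENNReal.ofReal_one] at this
    exact this
  exact tendsto_nhds_unique h1 h2

theorem pi_gam (ι : Type) [Fintype ι] : Measure.pi (fun _ : ι => gam) =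
    (volume : Measure (ι → ℝ)).withDensity fun w => ∏ i, ENNReal.ofReal (gden (w i)) := by
  apply Measure.pi_eq
  intro s hs
  rw [withDensity_apply _ (MeasurableSet.univ_pi hs), volume_pi, Measure.restrict_pi_pi,
    lintegral_pi_prod _ (fun _ x => ENNReal.ofReal (gden x))
      (fun _ => (ENNReal.continuous_ofReal.comp continuous_gden).measurable)]
  refine Finset.prod_congr rfl fun i _ => ?_
  rw [gam, withDensity_apply _ (hs i)]

end Pool.Agent.Lib.MP_727085_co.Rh
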