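import Pool.Agent.Lib.MP_727085_co.Rh.Defs

set_option autoImplicit false

/-!
# Hulls of tuples

PROOF. The hull of `Set.range fun i => toPt (e i)` (`coe_ver`) is the set of `∑ c i • toPt (e i)`,
`c ≥ 0`, `∑ c i = 1` (`convexHull_range_eq_exists_affineCombination`, or
`mem_convexHull_iff_exists_fintype`, or As/G.lean `hull_eq`, or `Finset.centerMass`), then `comb_of`,
`comb_sum`, `comb_pt`. For `mem_hull_sub`: the point is the centre of mass of the points with
positive coefficient.
-/

namespace Pool.Agent.Lib.MP_727085_co.Rh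

open Pool.Agent.Lib.MP_727085_co Matrix MeasureTheory
open scoped Real

variable {n : ℕ}

theorem mem_hull (e : Fin (n + 1) → V n) (x : Fin n → ℝ) :
    x ∈ convexHull ℝ (ver e : Set (Fin n → ℝ)) ↔
      ∃ c : Fin (n + 1) → ℝ, (∀ i, 0 ≤ c i) ∧ ∑ i, c i • hat (e i) = lift x := by
  classical
  rw [coe_ver]
  constructor
  · intro hx
    have h1 : convexHull ℝ (Set.range fun i => toPt (e i)) ⊆
        {x | ∃ c : Fin (n + 1) → ℝ, (∀ i, 0 ≤ c i) ∧ ∑ i, c i • hat (e i) = lift x} := by
      apply convexHull_min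
      · rintro y ⟨i, rfl⟩
        refine ⟨fun k => if k = i then 1 else 0, fun k => ?_, ?_⟩
        · dsimp only
          split_ifs <;> norm_num
        · simp only [ite_smul, one_smul, zero_smul, Finset.sum_ite_eq', Finset.mem_univ, if_true]
          rfl
      · rintro y ⟨c, hc, hcy⟩ y' ⟨c', hc', hcy'⟩ a b ha hb hab
        refine ⟨fun i => a * c i + b * c' i, fun i => ?_, ?_⟩
        · exact add_nonneg (mul_nonneg ha (hc i)) (mul_nonneg hb (hc' i))
        · simp only [add_smul, mul_smul, Finset.sum_add_distrib]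
          rw [← Finset.smul_sum, ← Finset.smul_sum, hcy, hcy']
          funext j
          refine Fin.cases ?_ (fun j => ?_) j
          · simpa [lift_zero] using hab
          · simp [lift_succ]
    exact h1 hx
  · rintro ⟨c, hc, hcx⟩
    rw [← comb_pt hcx]
    refine (convex_convexHull ℝ _).sum_mem (fun i _ => hc i) (comb_sum hcx) (fun i _ => ?_)
    exact subset_convexHull ℝ _ (Set.mem_range_self i)

/-- If the vertices with positive coefficient are in `s`, the point is in the hull of `s`. -/
theorem mem_hull_sub {e : Fin (n + 1) → V n} {x : Fin n → ℝ} {c : Fin (n + 1) → ℝ}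
    (hc : ∀ i, 0 ≤ c i) (hcx : ∑ i, c i • hat (e i) = lift x) {s : Set (Fin n → ℝ)}
    (hs : ∀ i, 0 < c i → toPt (e i) ∈ s) : x ∈ convexHull ℝ s := by
  classical
  have h1 := comb_sum hcx
  have h2 := comb_pt hcx
  have h3 : ∑ i ∈ Finset.univ.filter (fun i => 0 < c i), c i = 1 := by
    rw [← h1, Finset.sum_filter]
    refine Finset.sum_congr rfl fun i _ => ?_
    split_ifs with h
    · rfl
    · exact le_antisymm (hc i) (not_lt.1 h)
  have h4 : ∑ i ∈ Finset.univ.filter (fun i => 0 < c i), c i • toPt (e i) = x := by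
    rw [← h2, Finset.sum_filter]
    refine Finset.sum_congr rfl fun i _ => ?_
    split_ifs with h
    · rfl
    · rw [le_antisymm (not_lt.1 h) (hc i), zero_smul]
  rw [← h4]
  refine (convex_convexHull ℝ _).sum_mem (fun i _ => hc i) h3 (fun i hi => ?_)
  exact subset_convexHull ℝ _ (hs i (Finset.mem_filter.1 hi).2)

end Pool.Agent.Lib.MP_727085_co.Rh
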