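import Pool.Agent.Lib.MP_727085_co.Rh.Gum

set_option autoImplicit false

/-!
# Almost all heights are generic; measurability

PROOF. `mu n` is absolutely continuous with respect to `volume` (`pi_gam`,
`withDensity_absolutelyContinuous`). The set of non-generic heights is the union over the finitely many `e`,
`u` with `det (M e) ≠ 0`, `u ∉ range e` of the sets `{g | g u = hat u ⬝ᵥ zed g e}`, and each is the
kernel of the linear functional `g ↦ g u - hat u ⬝ᵥ ((M e)⁻¹ *ᵥ fun i => g (e i))`, which is not
zero: its value at `Pi.single u 1` is `1`. `Measure.addHaar_submodule`.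
`measurableSet_good`: if the determinant is not zero, it is a finite intersection of closed sets.
-/

namespace Pool.Agent.Lib.MP_727085_co.Rh

open Pool.Agent.Lib.MP_727085_co Matrix MeasureTheory
open scoped Real ENNReal

variable {n : ℕ}

/-- the linear functional whose kernel is one of the sets of non-generic heights -/
private noncomputable def Null_L (e : Fin (n + 1) → V n) (u : V n) : (V n → ℝ) →ₗ[ℝ] ℝ where
  toFun g := g u - hat u ⬝ᵥ zed g e
  map_add' g h := by
    have h1 : zed (g + h) e = zed g e + zed h e := by
      unfold zed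
      rw [← Matrix.mulVec_add]
      rfl
    rw [h1, dotProduct_add, Pi.add_apply]
    ring
  map_smul' c g := by
    have h1 : zed (c • g) e = c • zed g e := by
      unfold zed
      rw [← Matrix.mulVec_smul]
      rfl
    rw [h1, dotProduct_smul, Pi.smul_apply, smul_eq_mul, smul_eq_mul, RingHom.id_apply,
      smul_eq_mul]
    ring

private lemma Null_L_apply (e : Fin (n + 1) → V n) (u : V n) (g : V n → ℝ) :
    Null_L e u g = g u - hat u ⬝ᵥ zed g e := rfl

private lemma Null_vol (e : Fin (n + 1) → V n) (u : V n) (hu : u ∉ Set.range e) :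
    (volume : Measure (V n → ℝ)) {g | g u = hat u ⬝ᵥ zed g e} = 0 := by
  classical
  have h1 : {g : V n → ℝ | g u = hat u ⬝ᵥ zed g e} =
      ((LinearMap.ker (Null_L e u) : Submodule ℝ (V n → ℝ)) : Set (V n → ℝ)) := by
    ext g
    rw [Set.mem_ofPred_eq, SetLike.mem_coe, LinearMap.mem_ker, Null_L_apply, sub_eq_zero]
  rw [h1]
  apply Measure.addHaar_submodule
  intro htop
  have h2 : (Pi.single u (1 : ℝ) : V n → ℝ) ∈ LinearMap.ker (Null_L e u) := by
    rw [htop]
    exact Submodule.mem_top
  rw [LinearMap.mem_ker, Null_L_apply] at h2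
  have h3 : zed (Pi.single u (1 : ℝ) : V n → ℝ) e = 0 := by
    unfold zed
    have h4 : (fun i => (Pi.single u (1 : ℝ) : V n → ℝ) (e i)) = 0 := by
      funext i
      have h5 : e i ≠ u := fun h => hu ⟨i, h⟩
      rw [Pi.single_eq_of_ne h5]
      rfl
    rw [h4, Matrix.mulVec_zero]
  rw [h3, Pi.single_eq_same, dotProduct_zero] at h2
  norm_num at h2

theorem mu_not_gen (n : ℕ) : mu n {g | ¬ Gen g} = 0 := by
  have hac : mu n ≪ (volume : Measure (V n → ℝ)) := by
    unfold mu
    rw [pi_gam]
    exact withDensity_absolutelyContinuous _ _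
  apply hac
  have hsub : {g : V n → ℝ | ¬ Gen g} ⊆
      ⋃ e : Fin (n + 1) → V n, ⋃ u : V n, {g : V n → ℝ | u ∉ Set.range e ∧
        g u = hat u ⬝ᵥ zed g e} := by
    intro g hg
    rw [Set.mem_ofPred_eq, Gen] at hg
    push Not at hg
    obtain ⟨e, _, u, hu, hgu⟩ := hg
    rw [Set.mem_iUnion]
    refine ⟨e, ?_⟩
    rw [Set.mem_iUnion]
    exact ⟨u, hu, hgu⟩
  refine measure_mono_null hsub ?_
  rw [measure_iUnion_null_iff]
  intro e
  rw [measure_iUnion_null_iff]
  intro u
  by_cases hu : u ∈ Set.range e
  · have h0 : {g : V n → ℝ | u ∉ Set.range e ∧ g u = hat u ⬝ᵥ zed g e} = ∅ := by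
      ext g
      rw [Set.mem_ofPred_eq]
      constructor
      · intro h
        exact absurd hu h.1
      · intro h
        exact absurd h (Set.notMem_empty g)
    rw [h0, measure_empty]
  · refine measure_mono_null ?_ (Null_vol e u hu)
    intro g hg
    exact hg.2

theorem measurableSet_good (e : Fin (n + 1) → V n) : MeasurableSet {g : V n → ℝ | Good g e} := by
  by_cases h : (M e).det = 0
  · have h0 : {g : V n → ℝ | Good g e} = ∅ := by
      ext g
      rw [Set.mem_ofPred_eq]
      constructor
      · intro hg
        exact absurd h hg.1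
      · intro hg
        exact absurd hg (Set.notMem_empty g)
    rw [h0]
    exact MeasurableSet.empty
  · have h1 : {g : V n → ℝ | Good g e} = ⋂ u : V n, {g : V n → ℝ | Null_L e u g ≤ 0} := by
      ext g
      rw [Set.mem_ofPred_eq, Set.mem_iInter]
      constructor
      · intro hg u
        rw [Set.mem_ofPred_eq, Null_L_apply]
        linarith [hg.2 u]
      · intro hg
        refine ⟨h, fun u => ?_⟩
        have := hg u
        rw [Set.mem_ofPred_eq, Null_L_apply] at this
        linarith
    rw [h1]
    refine MeasurableSet.iInter fun u => ?_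
    exact measurableSet_le (Null_L e u).continuous_of_finiteDimensional.measurable
      measurable_const

end Pool.Agent.Lib.MP_727085_co.Rh
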