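import Pool.Agent.Lib.MP_727085_co.Rh.Prob
import Pool.Agent.Lib.MP_727085_co.Rh.Null
import Pool.Agent.Lib.MP_727085_co.Rh.Alg
import Pool.Agent.Lib.MP_727085_co.Rh.Fub

set_option autoImplicit false

/-!
# Generic heights with few simplices

PROOF. `X g = #(good g) = ∑ e, indicator {g | Good g e}`. `∫⁻ X = ∑ e, mu n {g | Good g e} ≤
∑ e, ofReal |det| * ∫⁻ z, ofReal ((∏ wt) * exp (-S))` (`prob_le`; if the determinant is `0` the set is
empty) `= ∫⁻ z, ofReal ((∑ e, |det| * ∏ wt) * exp (-S))` (`lintegral_finsetSum`,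
`lintegral_const_mul`, measurability by continuity) `≤ ofReal √(n+1)! * ∫⁻ z, ofReal (S^(n+1) * exp (-S) * ∏ 1/(2 cosh))`
(`sum_det_le`) `= ofReal (√(n+1)! * n! * π^n)` (`total_integral`). `mu n` is a probability
measure, and `exists_notMem_null_le_lintegral` with `N = {g | ¬ Gen g}` (`mu_not_gen`).
-/

namespace Pool.Agent.Lib.MP_727085_co.Rh

open Pool.Agent.Lib.MP_727085_co Matrix MeasureTheory
open scoped Real ENNReal

variable {n : ℕ}

private theorem main_meas_wt (z0 : V n) : Measurable fun z : Fin (n + 1) → ℝ => wt z z0 := by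
  unfold wt
  apply Continuous.measurable
  unfold dotProduct
  fun_prop

private theorem main_meas_S : Measurable fun z : Fin (n + 1) → ℝ => S z := by
  unfold S
  exact Finset.measurable_sum _ fun u _ => main_meas_wt u

theorem exists_heights (n : ℕ) : ∃ g : V n → ℝ, Gen g ∧
    ((good g).card : ℝ) ≤ Real.sqrt ((n + 1).factorial) * (n.factorial * π ^ n) := by
  classical
  have : IsProbabilityMeasure (mu n) := by unfold mu; infer_instance
  have hX : ∀ g : V n → ℝ, ((good g).card : ℝ≥0∞) =
      ∑ e : Fin (n + 1) → V n, Set.indicator {g : V n → ℝ | Good g e} (fun _ => (1 : ℝ≥0∞)) g := by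
    intro g
    unfold good
    rw [Finset.card_filter]
    push_cast
    refine Finset.sum_congr rfl fun e _ => ?_
    by_cases h : Good g e
    · rw [if_pos h, Set.indicator_of_mem (show g ∈ {g : V n → ℝ | Good g e} from h)]
    · rw [if_neg h, Set.indicator_of_notMem (show g ∉ {g : V n → ℝ | Good g e} from h)]
  have hmeas : Measurable fun g : V n → ℝ => ((good g).card : ℝ≥0∞) := by
    have : (fun g : V n → ℝ => ((good g).card : ℝ≥0∞)) = fun g =>
      ∑ e : Fin (n + 1) → V n, Set.indicator {g : V n → ℝ | Good g e} (fun _ => (1 : ℝ≥0∞)) g :=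
      funext hX
    rw [this]
    exact Finset.measurable_sum _ fun e _ => measurable_const.indicator (measurableSet_good e)
  obtain ⟨g, hg1, hg2⟩ := exists_notMem_null_le_lintegral (μ := mu n) hmeas.aemeasurable
    (mu_not_gen n)
  refine ⟨g, not_not.1 hg1, ?_⟩
  have hint : ∫⁻ g, ((good g).card : ℝ≥0∞) ∂(mu n) =
      ∑ e : Fin (n + 1) → V n, mu n {g | Good g e} := by
    rw [lintegral_congr hX, lintegral_finsetSum _ fun e _ =>
      measurable_const.indicator (measurableSet_good e)]
    refine Finset.sum_congr rfl fun e _ => ?_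
    rw [lintegral_indicator (measurableSet_good e)]
    simp
  have hnn : ∀ (e : Fin (n + 1) → V n) (z : Fin (n + 1) → ℝ),
      0 ≤ (∏ i, wt z (e i)) * Real.exp (-(S z)) := fun e z =>
    mul_nonneg (Finset.prod_nonneg fun i _ => (wt_pos z _).le) (Real.exp_pos _).le
  have hme : ∀ e : Fin (n + 1) → V n, Measurable fun z : Fin (n + 1) → ℝ =>
      ENNReal.ofReal ((∏ i, wt z (e i)) * Real.exp (-(S z))) := by
    intro e
    apply Measurable.ennreal_ofReal
    apply Measurable.mul
    · exact Finset.measurable_prod _ fun i _ => main_meas_wt (e i)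
    · exact Real.measurable_exp.comp main_meas_S.neg
  have hle1 : ∑ e : Fin (n + 1) → V n, mu n {g | Good g e} ≤
      ∑ e : Fin (n + 1) → V n, ENNReal.ofReal |(M e).det| *
        ∫⁻ z : Fin (n + 1) → ℝ, ENNReal.ofReal ((∏ i, wt z (e i)) * Real.exp (-(S z))) := by
    refine Finset.sum_le_sum fun e _ => ?_
    by_cases h : (M e).det = 0
    · have h0 : {g : V n → ℝ | Good g e} = ∅ := by
        ext g
        simp only [Set.mem_ofPred_eq, Set.mem_empty_iff_false, iff_false]
        exact fun hg => hg.1 h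
      rw [h0, measure_empty]
      exact zero_le
    · exact prob_le h
  have heq2 : ∑ e : Fin (n + 1) → V n, ENNReal.ofReal |(M e).det| *
        ∫⁻ z : Fin (n + 1) → ℝ, ENNReal.ofReal ((∏ i, wt z (e i)) * Real.exp (-(S z))) =
      ∫⁻ z : Fin (n + 1) → ℝ, ENNReal.ofReal ((∑ e : Fin (n + 1) → V n,
        |(M e).det| * ∏ i, wt z (e i)) * Real.exp (-(S z))) := by
    have h1 : ∀ e : Fin (n + 1) → V n, ENNReal.ofReal |(M e).det| *
        ∫⁻ z : Fin (n + 1) → ℝ, ENNReal.ofReal ((∏ i, wt z (e i)) * Real.exp (-(S z))) =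
        ∫⁻ z : Fin (n + 1) → ℝ, ENNReal.ofReal |(M e).det| *
          ENNReal.ofReal ((∏ i, wt z (e i)) * Real.exp (-(S z))) := fun e =>
      (lintegral_const_mul _ (hme e)).symm
    rw [Finset.sum_congr rfl fun e _ => h1 e, ← lintegral_finsetSum _ fun e _ =>
      (hme e).const_mul _]
    refine lintegral_congr fun z => ?_
    rw [Finset.sum_mul, ENNReal.ofReal_sum_of_nonneg]
    · refine Finset.sum_congr rfl fun e _ => ?_
      rw [← ENNReal.ofReal_mul (abs_nonneg _), mul_assoc]
    · intro e _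
      rw [mul_assoc]
      exact mul_nonneg (abs_nonneg _) (hnn e z)
  have hle3 : ∫⁻ z : Fin (n + 1) → ℝ, ENNReal.ofReal ((∑ e : Fin (n + 1) → V n,
        |(M e).det| * ∏ i, wt z (e i)) * Real.exp (-(S z))) ≤
      ENNReal.ofReal (Real.sqrt ((n + 1).factorial) * (n.factorial * π ^ n)) := by
    calc ∫⁻ z : Fin (n + 1) → ℝ, ENNReal.ofReal ((∑ e : Fin (n + 1) → V n,
          |(M e).det| * ∏ i, wt z (e i)) * Real.exp (-(S z)))
        ≤ ∫⁻ z : Fin (n + 1) → ℝ, ENNReal.ofReal (Real.sqrt ((n + 1).factorial)) *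
          ENNReal.ofReal (S z ^ (n + 1) * Real.exp (-(S z)) *
            ∏ j : Fin n, (1 / (2 * Real.cosh (z j.succ / 2)))) := by
          refine lintegral_mono fun z => ?_
          rw [← ENNReal.ofReal_mul (Real.sqrt_nonneg _)]
          apply ENNReal.ofReal_le_ofReal
          calc (∑ e : Fin (n + 1) → V n, |(M e).det| * ∏ i, wt z (e i)) * Real.exp (-(S z))
              ≤ (Real.sqrt ((n + 1).factorial) * S z ^ (n + 1) *
                ∏ j : Fin n, (1 / (2 * Real.cosh (z j.succ / 2)))) * Real.exp (-(S z)) :=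
                mul_le_mul_of_nonneg_right (sum_det_le z) (Real.exp_pos _).le
            _ = _ := by ring
      _ = ENNReal.ofReal (Real.sqrt ((n + 1).factorial)) *
          ∫⁻ z : Fin (n + 1) → ℝ, ENNReal.ofReal (S z ^ (n + 1) * Real.exp (-(S z)) *
            ∏ j : Fin n, (1 / (2 * Real.cosh (z j.succ / 2)))) :=
          lintegral_const_mul' _ _ ENNReal.ofReal_ne_top
      _ = ENNReal.ofReal (Real.sqrt ((n + 1).factorial)) *
          ENNReal.ofReal (n.factorial * π ^ n) := by rw [total_integral]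
      _ = _ := by rw [← ENNReal.ofReal_mul (Real.sqrt_nonneg _)]
  have hfin : ((good g).card : ℝ≥0∞) ≤
      ENNReal.ofReal (Real.sqrt ((n + 1).factorial) * (n.factorial * π ^ n)) := by
    refine hg2.trans ?_
    rw [hint]
    refine hle1.trans ?_
    rw [heq2]
    exact hle3
  have hpos : 0 ≤ Real.sqrt ((n + 1).factorial) * (n.factorial * π ^ n) := by positivity
  have h5 := ENNReal.toReal_mono ENNReal.ofReal_ne_top hfin
  rw [ENNReal.toReal_ofReal hpos, ENNReal.toReal_natCast] at h5
  exact h5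

end Pool.Agent.Lib.MP_727085_co.Rh
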