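import Mathlib

set_option autoImplicit false

/-!
# Numerical lemmas

PROOF. `num_exact`: `(n+1)! * t ≤ √(n+1)! * n! * π^n` gives `t ≤ n! π^n / √(n+1)!` and
`n! / √((n+1)!) = √(n!^2 / (n+1)!) = √(n! / (n+1))`.
`fact_le`: induction, `n^(n+1) * e ≤ (n+1)^(n+1)` from `log (1 + 1/n) ≥ 1 / (n+1)`.
`num_asymp`: by `fact_le`, `√(n!/(n+1)) ≤ √(e * (n/e)^n)`, so the bound is at most
`√e * (π/√e)^n * √n^n`, and `√e * (π/√e)^n ≤ c^n` for large `n` as `c > π/√e`.
-/

namespace Pool.Agent.Lib.MP_727085_co.Rh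

open scoped Real

theorem num_exact (n : ℕ) (t : ℝ) (h : ((n + 1).factorial : ℝ) * t ≤
    Real.sqrt ((n + 1).factorial) * (n.factorial * π ^ n)) :
    t ≤ π ^ n * Real.sqrt (n.factorial / (n + 1)) := by
  have ha : (0 : ℝ) < ((n + 1).factorial : ℝ) := by exact_mod_cast Nat.factorial_pos _
  have hb : (0 : ℝ) < (n.factorial : ℝ) := by exact_mod_cast Nat.factorial_pos _
  have hab : ((n + 1).factorial : ℝ) = (n + 1) * n.factorial := by
    rw [Nat.factorial_succ]; push_cast; ring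
  have hn : (0 : ℝ) < (n : ℝ) + 1 := by positivity
  have h1 : (n.factorial : ℝ) / (n + 1) = (n.factorial : ℝ) ^ 2 / ((n + 1).factorial : ℝ) := by
    rw [hab]
    field_simp
  have h2 : Real.sqrt (n.factorial / (n + 1)) =
      n.factorial / Real.sqrt ((n + 1).factorial) := by
    rw [h1, Real.sqrt_div (by positivity), Real.sqrt_sq hb.le]
  rw [h2]
  have hs : 0 < Real.sqrt ((n + 1).factorial) := Real.sqrt_pos.2 ha
  have hss : Real.sqrt ((n + 1).factorial) * Real.sqrt ((n + 1).factorial) =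
      ((n + 1).factorial : ℝ) := Real.mul_self_sqrt ha.le
  have h3 : ((n + 1).factorial : ℝ) * t ≤ ((n + 1).factorial : ℝ) *
      (π ^ n * (n.factorial / Real.sqrt ((n + 1).factorial))) := by
    refine h.trans (le_of_eq ?_)
    have h4 : ((n + 1).factorial : ℝ) / Real.sqrt ((n + 1).factorial) =
        Real.sqrt ((n + 1).factorial) := by
      rw [div_eq_iff hs.ne', hss]
    calc Real.sqrt ((n + 1).factorial) * (n.factorial * π ^ n) =
        ((n + 1).factorial : ℝ) / Real.sqrt ((n + 1).factorial) * (n.factorial * π ^ n) := by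
          rw [h4]
      _ = _ := by ring
  exact le_of_mul_le_mul_left h3 ha

private theorem step_le (n : ℕ) (hn : 1 ≤ n) :
    Real.exp 1 * (n : ℝ) ^ (n + 1) ≤ ((n : ℝ) + 1) ^ (n + 1) := by
  have hn0 : (0 : ℝ) < n := by exact_mod_cast hn
  have hx : (0 : ℝ) < ((n : ℝ) + 1) / n := by positivity
  have h1 := Real.one_sub_inv_le_log_of_pos hx
  have h2 : 1 - (((n : ℝ) + 1) / n)⁻¹ = 1 / (n + 1) := by
    rw [inv_div]; field_simp; ring
  rw [h2] at h1
  have h3 : Real.exp 1 ≤ (((n : ℝ) + 1) / n) ^ (n + 1) := by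
    have h4 : (((n : ℝ) + 1) / n) ^ (n + 1) =
        Real.exp (((n + 1 : ℕ) : ℝ) * Real.log (((n : ℝ) + 1) / n)) := by
      rw [Real.exp_nat_mul, Real.exp_log hx]
    rw [h4]
    apply Real.exp_le_exp.2
    have h5 : ((n + 1 : ℕ) : ℝ) * (1 / (n + 1)) = 1 := by push_cast; field_simp
    have h6 : ((n + 1 : ℕ) : ℝ) * (1 / (n + 1)) ≤
        ((n + 1 : ℕ) : ℝ) * Real.log (((n : ℝ) + 1) / n) :=
      mul_le_mul_of_nonneg_left h1 (Nat.cast_nonneg _)
    linarith
  calc Real.exp 1 * (n : ℝ) ^ (n + 1) ≤ (((n : ℝ) + 1) / n) ^ (n + 1) * (n : ℝ) ^ (n + 1) :=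
        mul_le_mul_of_nonneg_right h3 (by positivity)
    _ = ((n : ℝ) + 1) ^ (n + 1) := by rw [← mul_pow]; congr 1; field_simp

private theorem fact_aux (n : ℕ) (hn : 1 ≤ n) :
    (n.factorial : ℝ) ≤ Real.exp 1 * n * (n / Real.exp 1) ^ n := by
  induction n, hn using Nat.le_induction with
  | base =>
    have := Real.exp_pos 1
    simp only [Nat.factorial_one, Nat.cast_one, mul_one, pow_one]
    rw [mul_one_div_cancel this.ne']
  | succ n hn ih =>
    have he := Real.exp_pos 1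
    have hn0 : (0 : ℝ) < n := by exact_mod_cast hn
    rw [Nat.factorial_succ]
    push_cast
    have h1 := step_le n hn
    have h2 : (n : ℝ) * (n / Real.exp 1) ^ n ≤ (((n : ℝ) + 1) / Real.exp 1) ^ (n + 1) := by
      rw [div_pow, div_pow, mul_div_assoc', div_le_div_iff₀ (by positivity) (by positivity)]
      calc (n : ℝ) * (n : ℝ) ^ n * Real.exp 1 ^ (n + 1) =
          Real.exp 1 * (n : ℝ) ^ (n + 1) * Real.exp 1 ^ n := by ring
        _ ≤ ((n : ℝ) + 1) ^ (n + 1) * Real.exp 1 ^ n :=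
            mul_le_mul_of_nonneg_right h1 (by positivity)
    calc ((n : ℝ) + 1) * (n.factorial : ℝ) ≤
        ((n : ℝ) + 1) * (Real.exp 1 * n * (n / Real.exp 1) ^ n) :=
          mul_le_mul_of_nonneg_left ih (by positivity)
      _ = Real.exp 1 * (n + 1) * ((n : ℝ) * (n / Real.exp 1) ^ n) := by ring
      _ ≤ _ := mul_le_mul_of_nonneg_left h2 (by positivity)

theorem fact_le (n : ℕ) (hn : 1 ≤ n) :
    (n.factorial : ℝ) / (n + 1) ≤ Real.exp 1 * (n / Real.exp 1) ^ n := by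
  have he := Real.exp_pos 1
  have hn0 : (0 : ℝ) < n := by exact_mod_cast hn
  rw [div_le_iff₀ (by positivity)]
  refine (fact_aux n hn).trans ?_
  calc Real.exp 1 * n * (n / Real.exp 1) ^ n =
      Real.exp 1 * (n / Real.exp 1) ^ n * n := by ring
    _ ≤ Real.exp 1 * (n / Real.exp 1) ^ n * (n + 1) :=
        mul_le_mul_of_nonneg_left (by linarith) (by positivity)

theorem num_asymp {c : ℝ} (hc : π / Real.sqrt (Real.exp 1) < c) : ∃ n₀ : ℕ, ∀ n : ℕ, n₀ ≤ n →
    π ^ n * Real.sqrt (n.factorial / (n + 1)) ≤ (c * Real.sqrt n) ^ n := by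
  have he := Real.exp_pos 1
  have hse : 0 < Real.sqrt (Real.exp 1) := Real.sqrt_pos.2 he
  have hq : 0 < π / Real.sqrt (Real.exp 1) := div_pos Real.pi_pos hse
  set q := π / Real.sqrt (Real.exp 1) with hqd
  have h1 : 1 < c / q := by rwa [lt_div_iff₀ hq, one_mul]
  have h2 := (tendsto_pow_atTop_atTop_of_one_lt h1).eventually
    (Filter.eventually_ge_atTop (Real.sqrt (Real.exp 1)))
  obtain ⟨n₀, h3⟩ := Filter.eventually_atTop.1 h2
  refine ⟨max n₀ 1, fun n hn => ?_⟩
  have h4 := h3 n (le_trans (le_max_left _ _) hn)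
  have hn1 : 1 ≤ n := le_trans (le_max_right _ _) hn
  have hn0 : (0 : ℝ) < n := by exact_mod_cast hn1
  have h5 : Real.sqrt (Real.exp 1) * q ^ n ≤ c ^ n := by
    rw [div_pow, le_div_iff₀ (by positivity)] at h4
    exact h4
  have h6 : Real.sqrt (n.factorial / (n + 1)) ≤
      Real.sqrt (Real.exp 1) * (Real.sqrt n / Real.sqrt (Real.exp 1)) ^ n := by
    have h7 : Real.exp 1 * (n / Real.exp 1) ^ n =
        (Real.sqrt (Real.exp 1) * (Real.sqrt n / Real.sqrt (Real.exp 1)) ^ n) ^ 2 := by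
      rw [mul_pow, Real.sq_sqrt he.le, ← pow_mul, mul_comm n 2, pow_mul,
        div_pow (Real.sqrt n) (Real.sqrt (Real.exp 1)) 2, Real.sq_sqrt hn0.le,
        Real.sq_sqrt he.le]
    rw [Real.sqrt_le_left (by positivity), ← h7]
    exact fact_le n hn1
  calc π ^ n * Real.sqrt (n.factorial / (n + 1)) ≤
      π ^ n * (Real.sqrt (Real.exp 1) * (Real.sqrt n / Real.sqrt (Real.exp 1)) ^ n) :=
        mul_le_mul_of_nonneg_left h6 (by positivity)
    _ = Real.sqrt (Real.exp 1) * q ^ n * Real.sqrt n ^ n := by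
        rw [hqd, div_pow, div_pow]; ring
    _ ≤ c ^ n * Real.sqrt n ^ n := mul_le_mul_of_nonneg_right h5 (by positivity)
    _ = (c * Real.sqrt n) ^ n := by rw [mul_pow]

end Pool.Agent.Lib.MP_727085_co.Rh
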