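import Pool.Agent.Lib.MP_727085_co.Rh.Defs

set_option autoImplicit false

/-!
# Sums over the vertices with product weights

`wt z u = exp (-z 0) * ∏ j, (if u j then exp (-z (j+1)) else 1)`. PROOF. All sums over `u : V n = Fin n → Bool`
of products over the coordinates factor: `Finset.prod_univ_sum` (`Fintype.piFinset_univ`) and
`Fintype.sum_bool`. With `p j = 1 / (1 + exp (z (j+1)))`, i.e.
`exp (-z (j+1)) = (1 + exp (-z (j+1))) * p j` and `1 = (1 + exp (-z (j+1))) * (1 - p j)`:
`S_eq`; `sum_cen`: factor `j` is `(1 + exp (-z)) * (p j (1 - p j) + (1 - p j) (0 - p j)) = 0`;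
`sum_cen_cen` for `j ≠ k` the same, for `j = k` factor `j` is
`(1 + exp (-z)) (p (1-p)^2 + (1-p) p^2) = (1 + exp (-z)) p (1-p)`.
(Suggested: a general lemma `∑ u, wt z u * ∏ j, f j (u j) = exp (-z 0) * ∏ j, (exp (-z (j+1)) * f j true + f j false)`,
used with `f j b = if j = a then .. else 1`.)

`det_second`: let `U` be the matrix with `U 0 (j+1) = -p j`, `1` on the diagonal, else `0`; upper triangular with
determinant `1`. Then `Uᵀ * K * U` for `K j k = ∑ u, wt z u * (hat u j * hat u k)` is the matrix
`∑ u, wt z u * (cen u j * cen u k)`, `cen u 0 = 1`, `cen u (j+1) = toPt u j - p j`, which is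
diagonal with entries `S z`, `S z * p j * (1 - p j)`.
-/

namespace Pool.Agent.Lib.MP_727085_co.Rh

open Pool.Agent.Lib.MP_727085_co Matrix MeasureTheory
open scoped Real ENNReal

variable {n : ℕ}

/-- The mean of coordinate `j`. -/
noncomputable def pp (z : Fin (n + 1) → ℝ) (j : Fin n) : ℝ := 1 / (1 + Real.exp (z j.succ))

theorem wt_eq (z : Fin (n + 1) → ℝ) (u : V n) :
    wt z u = Real.exp (-z 0) * ∏ j : Fin n, (if u j = true then Real.exp (-z j.succ) else 1) := by
  have h1 : hat u ⬝ᵥ z = z 0 + ∑ j : Fin n, toPt u j * z j.succ := by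
    simp only [dotProduct]
    rw [Fin.sum_univ_succ, hat_zero, one_mul]
    rfl
  have h2 : ∀ j : Fin n, (if u j = true then Real.exp (-z j.succ) else 1) =
      Real.exp (-(toPt u j * z j.succ)) := by
    intro j
    simp only [toPt]
    split_ifs with h
    · rw [one_mul]
    · rw [zero_mul, neg_zero, Real.exp_zero]
  rw [wt, h1, Finset.prod_congr rfl fun j _ => h2 j, ← Real.exp_sum, ← Real.exp_add,
    Finset.sum_neg_distrib, neg_add]

theorem sum_prod (z : Fin (n + 1) → ℝ) (f : Fin n → Bool → ℝ) :
    ∑ u : V n, wt z u * ∏ j, f j (u j) =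
      Real.exp (-z 0) * ∏ j : Fin n, (Real.exp (-z j.succ) * f j true + f j false) := by
  have h1 : ∀ j : Fin n, Real.exp (-z j.succ) * f j true + f j false =
      ∑ b ∈ (Finset.univ : Finset Bool), (if b = true then Real.exp (-z j.succ) else 1) * f j b := by
    intro j
    rw [Fintype.sum_bool]
    simp
  rw [Finset.prod_congr rfl fun j _ => h1 j, Finset.prod_univ_sum, Fintype.piFinset_univ,
    Finset.mul_sum]
  refine Finset.sum_congr rfl fun u _ => ?_
  rw [wt_eq, Finset.prod_mul_distrib, mul_assoc]

theorem S_eq (z : Fin (n + 1) → ℝ) :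
    S z = Real.exp (-z 0) * ∏ j : Fin n, (1 + Real.exp (-z j.succ)) := by
  have h := sum_prod z (fun _ _ => 1)
  simp only [Finset.prod_const_one, mul_one] at h
  rw [S, h]
  congr 1
  exact Finset.prod_congr rfl fun j _ => add_comm _ _

theorem pp_zero (z : Fin (n + 1) → ℝ) (j : Fin n) :
    Real.exp (-z j.succ) * (1 - pp z j) + (0 - pp z j) = 0 := by
  have h1 : 0 < Real.exp (z j.succ) := Real.exp_pos _
  rw [pp, Real.exp_neg]
  field_simp
  ring

theorem pp_sq (z : Fin (n + 1) → ℝ) (j : Fin n) :
    Real.exp (-z j.succ) * (1 - pp z j) ^ 2 + (0 - pp z j) ^ 2 =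
      (1 + Real.exp (-z j.succ)) * (pp z j * (1 - pp z j)) := by
  have h1 : 0 < Real.exp (z j.succ) := Real.exp_pos _
  rw [pp, Real.exp_neg]
  field_simp
  ring

theorem sum_cen (z : Fin (n + 1) → ℝ) (j : Fin n) :
    ∑ u, wt z u * (toPt u j - pp z j) = 0 := by
  classical
  have h := sum_prod z (fun i b => if i = j then (if b = true then 1 else 0) - pp z j else 1)
  have h1 : ∀ u : V n, ∏ i, (fun (i : Fin n) (b : Bool) => if i = j then
      (if b = true then (1 : ℝ) else 0) - pp z j else 1) i (u i) = toPt u j - pp z j := by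
    intro u
    simp only [Finset.prod_ite_eq', Finset.mem_univ, if_true]
    rfl
  rw [Finset.sum_congr rfl fun u _ => by rw [h1 u]] at h
  rw [h]
  apply mul_eq_zero_of_right
  refine Finset.prod_eq_zero (Finset.mem_univ j) ?_
  simp only [if_true]
  have h2 := pp_zero z j
  simpa using h2

theorem sum_cen_cen (z : Fin (n + 1) → ℝ) (j k : Fin n) :
    ∑ u, wt z u * ((toPt u j - pp z j) * (toPt u k - pp z k)) =
      if j = k then S z * (pp z j * (1 - pp z j)) else 0 := by
  classical
  have h := sum_prod z (fun i b => (if i = j then (if b = true then 1 else 0) - pp z j else 1) *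
    (if i = k then (if b = true then 1 else 0) - pp z k else 1))
  have h1 : ∀ u : V n, ∏ i, (fun (i : Fin n) (b : Bool) =>
      (if i = j then (if b = true then (1 : ℝ) else 0) - pp z j else 1) *
      (if i = k then (if b = true then (1 : ℝ) else 0) - pp z k else 1)) i (u i) =
        (toPt u j - pp z j) * (toPt u k - pp z k) := by
    intro u
    simp only [Finset.prod_mul_distrib, Finset.prod_ite_eq', Finset.mem_univ, if_true]
    rfl
  rw [Finset.sum_congr rfl fun u _ => by rw [h1 u]] at h
  rw [h]
  by_cases hjk : j = k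
  · subst hjk
    have hr : (if j = j then S z * (pp z j * (1 - pp z j)) else 0) =
        S z * (pp z j * (1 - pp z j)) := if_pos rfl
    rw [hr, S_eq, mul_assoc]
    congr 1
    rw [← Finset.mul_prod_erase _ _ (Finset.mem_univ j),
      ← Finset.mul_prod_erase _ (fun j : Fin n => 1 + Real.exp (-z j.succ)) (Finset.mem_univ j)]
    have h2 : ∀ i ∈ Finset.univ.erase j, (Real.exp (-z i.succ) *
        ((if i = j then (if true = true then (1 : ℝ) else 0) - pp z j else 1) *
          (if i = j then (if true = true then (1 : ℝ) else 0) - pp z j else 1)) +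
        (if i = j then (if false = true then (1 : ℝ) else 0) - pp z j else 1) *
          (if i = j then (if false = true then (1 : ℝ) else 0) - pp z j else 1)) =
        1 + Real.exp (-z i.succ) := by
      intro i hi
      have hi' := Finset.ne_of_mem_erase hi
      simp only [if_neg hi']
      ring
    rw [Finset.prod_congr rfl h2]
    have h3 := pp_sq z j
    simp only [if_true, Bool.false_eq_true, if_false]
    linear_combination (∏ i ∈ Finset.univ.erase j, (1 + Real.exp (-z i.succ))) * h3
  · rw [if_neg hjk]
    apply mul_eq_zero_of_right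
    refine Finset.prod_eq_zero (Finset.mem_univ j) ?_
    have h2 := pp_zero z j
    simp only [if_true, if_neg hjk, mul_one, Bool.false_eq_true, if_false]
    exact h2

theorem det_second (z : Fin (n + 1) → ℝ) :
    (Matrix.of fun j k : Fin (n + 1) => ∑ u, wt z u * (hat u j * hat u k)).det =
      S z ^ (n + 1) * ∏ j, (pp z j * (1 - pp z j)) := by
  classical
  let H : Matrix (V n) (Fin (n + 1)) ℝ := Matrix.of fun u j => hat u j
  let D : Matrix (V n) (V n) ℝ := Matrix.diagonal (wt z)
  let U : Matrix (Fin (n + 1)) (Fin (n + 1)) ℝ := Matrix.of fun i =>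
    Fin.cases (motive := fun _ => Fin (n + 1) → ℝ) (Fin.cons 1 fun j => -pp z j)
      (fun k => Fin.cons 0 fun j => if k = j then 1 else 0) i
  have hU00 : U 0 0 = 1 := rfl
  have hU0s : ∀ j : Fin n, U 0 j.succ = -pp z j := fun j => rfl
  have hUs0 : ∀ k : Fin n, U k.succ 0 = 0 := fun k => rfl
  have hUss : ∀ k j : Fin n, U k.succ j.succ = if k = j then 1 else 0 := fun k j => rfl
  have hK : (Matrix.of fun j k : Fin (n + 1) => ∑ u, wt z u * (hat u j * hat u k)) =
      Hᵀ * D * H := by
    ext j k
    rw [Matrix.mul_apply]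
    simp only [Matrix.of_apply, D, Matrix.mul_diagonal, Matrix.transpose_apply, H]
    exact Finset.sum_congr rfl fun u _ => by ring
  have hU : U.det = 1 := by
    rw [Matrix.det_of_isUpperTriangular]
    · rw [Fin.prod_univ_succ, hU00]
      simp [hUss]
    · intro i j hij
      revert hij
      refine Fin.cases ?_ (fun k => ?_) i
      · intro hij
        exact absurd hij (Fin.not_lt_zero _)
      · refine Fin.cases ?_ (fun l => ?_) j
        · intro _
          exact hUs0 k
        · intro hij
          rw [hUss, if_neg]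
          intro hkl
          subst hkl
          exact lt_irrefl _ hij
  have hHU : ∀ (u : V n) (j : Fin (n + 1)), (H * U) u j =
      (Fin.cons 1 (fun j => toPt u j - pp z j) : Fin (n + 1) → ℝ) j := by
    intro u j
    rw [Matrix.mul_apply, Fin.sum_univ_succ]
    refine Fin.cases ?_ (fun j => ?_) j
    · simp only [hU00, hUs0, H, Matrix.of_apply, hat_zero, mul_one, mul_zero,
        Finset.sum_const_zero, add_zero, Fin.cons_zero]
    · simp only [hU0s, hUss, H, Matrix.of_apply, hat_zero, hat_succ, one_mul, mul_ite, mul_one,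
        mul_zero, Finset.sum_ite_eq', Finset.mem_univ, if_true, Fin.cons_succ]
      ring
  have hdiag : (H * U)ᵀ * D * (H * U) =
      Matrix.diagonal (Fin.cons (S z) fun j => S z * (pp z j * (1 - pp z j))) := by
    ext a b
    rw [Matrix.mul_apply]
    have h1 : ∀ u, ((H * U)ᵀ * D) a u * (H * U) u b = wt z u *
        ((Fin.cons 1 (fun j => toPt u j - pp z j) : Fin (n + 1) → ℝ) a *
          (Fin.cons 1 (fun j => toPt u j - pp z j) : Fin (n + 1) → ℝ) b) := by
      intro u
      rw [Matrix.mul_diagonal, Matrix.transpose_apply, hHU, hHU]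
      ring
    rw [Finset.sum_congr rfl fun u _ => h1 u]
    refine Fin.cases ?_ (fun j => ?_) a
    · refine Fin.cases ?_ (fun k => ?_) b
      · simp [S]
      · rw [Matrix.diagonal_apply_ne _ (Fin.succ_ne_zero k).symm]
        simp only [Fin.cons_zero, Fin.cons_succ, one_mul]
        exact sum_cen z k
    · refine Fin.cases ?_ (fun k => ?_) b
      · rw [Matrix.diagonal_apply_ne _ (Fin.succ_ne_zero j)]
        simp only [Fin.cons_zero, Fin.cons_succ, mul_one]
        exact sum_cen z j
      · simp only [Fin.cons_succ]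
        rw [sum_cen_cen z j k]
        by_cases hjk : j = k
        · subst hjk
          rw [if_pos rfl, Matrix.diagonal_apply_eq, Fin.cons_succ]
        · rw [if_neg hjk, Matrix.diagonal_apply_ne]
          intro h
          exact hjk (Fin.succ_injective _ h)
  have hfin : ((H * U)ᵀ * D * (H * U)).det = (Hᵀ * D * H).det := by
    have h1 : (H * U)ᵀ * D * (H * U) = Uᵀ * (Hᵀ * D * H) * U := by
      rw [Matrix.transpose_mul]
      simp only [Matrix.mul_assoc]
    rw [h1, Matrix.det_mul, Matrix.det_mul, Matrix.det_transpose, hU]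
    ring
  rw [hK, ← hfin, hdiag, Matrix.det_diagonal, Fin.prod_univ_succ, Fin.cons_zero]
  simp only [Fin.cons_succ]
  rw [Finset.prod_mul_distrib, Finset.prod_const, Finset.card_univ, Fintype.card_fin, pow_succ]
  ring

end Pool.Agent.Lib.MP_727085_co.Rh
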