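import Pool.Agent.Lib.MP_727085_co.Rh.Spl

set_option autoImplicit false

/-!
# The probability that a tuple is a simplex

PROOF. `change`: `Real.map_matrix_volume_pi_eq_smul_volume_pi` and `lintegral_map`.

`prob_le`: `{g | Good g e} ⊆ {g | ∀ u ∉ range e, g u ≤ φ u (g ∘ e)}` with
`φ u w = hat u ⬝ᵥ ((M e)⁻¹ *ᵥ w)` (continuous, so measurable). By `split`, `pi_gam` and
`lintegral_withDensity_eq_lintegral_mul` its measure is
`∫⁻ w, (∏ i, ofReal (gden (w i))) * ∏ u ∉ range e, gam (Iic (φ u w))`, and `change` with `A = M e`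
makes it `ofReal |det| * ∫⁻ z, (∏ i, ofReal (gden (hat (e i) ⬝ᵥ z))) * ∏ u ∉ range e,
gam (Iic (hat u ⬝ᵥ z))` (`(M e)⁻¹ *ᵥ (M e *ᵥ z) = z`, `mulVec_M`). By `gam_Iic` and `gden_eq`
(`gden x = exp (-x) * exp (-exp (-x))`) the integrand is `ofReal` of
`(∏ i, exp (-(hat (e i) ⬝ᵥ z))) * ∏ u, exp (-exp (-(hat u ⬝ᵥ z)))`: the product over all `u` is the
product over the range (= over `i`, `e` injective, `Finset.prod_image`) times the product over the
complement; `∏ exp = exp ∑`.
-/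

namespace Pool.Agent.Lib.MP_727085_co.Rh

open Pool.Agent.Lib.MP_727085_co Matrix MeasureTheory
open scoped Real ENNReal

variable {n : ℕ}

theorem change {m : ℕ} (A : Matrix (Fin m) (Fin m) ℝ) (hA : A.det ≠ 0)
    (F : (Fin m → ℝ) → ℝ≥0∞) (hF : Measurable F) :
    ∫⁻ w, F w = ENNReal.ofReal |A.det| * ∫⁻ z, F (A *ᵥ z) := by
  have h1 := Real.map_matrix_volume_pi_eq_smul_volume_pi hA
  have hmeas : Measurable (Matrix.toLin' A) :=
    (LinearMap.continuous_on_pi (Matrix.toLin' A)).measurable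
  have h2 : ∫⁻ z, F (A *ᵥ z) = ∫⁻ w, F w ∂(Measure.map (Matrix.toLin' A) volume) := by
    rw [lintegral_map hF hmeas]
    rfl
  rw [h2, h1, lintegral_smul_measure, smul_eq_mul, ← mul_assoc,
    ← ENNReal.ofReal_mul (abs_nonneg _), ← abs_mul, mul_inv_cancel₀ hA, abs_one,
    ENNReal.ofReal_one, one_mul]

private theorem prob_pt {e : Fin (n + 1) → V n} (he : (M e).det ≠ 0) (z : Fin (n + 1) → ℝ) :
    (∏ i, Real.exp (-(wt z (e i)))) *
      ∏ u ∈ Finset.univ.filter (fun u => ¬ ∃ i, e i = u), Real.exp (-(wt z u)) =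
      Real.exp (-(S z)) := by
  classical
  rw [← Real.exp_sum, ← Real.exp_sum, ← Real.exp_add, Finset.sum_neg_distrib,
    Finset.sum_neg_distrib, ← neg_add]
  congr 2
  have h1 : ∑ i, wt z (e i) = ∑ u ∈ Finset.univ.filter (fun u => ∃ i, e i = u), wt z u := by
    have h2 : Finset.univ.filter (fun u => ∃ i, e i = u) = Finset.univ.image e := by
      ext u
      simp
    rw [h2, Finset.sum_image (fun a _ b _ hab => injective_of_det he hab)]
  rw [h1, S]
  exact Finset.sum_filter_add_sum_filter_not _ _ _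

theorem prob_le {e : Fin (n + 1) → V n} (he : (M e).det ≠ 0) :
    mu n {g | Good g e} ≤ ENNReal.ofReal |(M e).det| *
      ∫⁻ z : Fin (n + 1) → ℝ, ENNReal.ofReal ((∏ i, wt z (e i)) * Real.exp (-(S z))) := by
  classical
  have hφm : ∀ u : V n, Measurable (fun w : Fin (n + 1) → ℝ => hat u ⬝ᵥ ((M e)⁻¹ *ᵥ w)) := by
    intro u
    have h1 : Continuous (fun w : Fin (n + 1) → ℝ => hat u ⬝ᵥ ((M e)⁻¹ *ᵥ w)) := by
      simp only [dotProduct, Matrix.mulVec]
      fun_prop
    exact h1.measurable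
  have hsub : {g | Good g e} ⊆ {g : V n → ℝ | ∀ u, u ∉ Set.range e →
      g u ≤ (fun (u : V n) (w : Fin (n + 1) → ℝ) => hat u ⬝ᵥ ((M e)⁻¹ *ᵥ w)) u
        (fun i => g (e i))} := by
    intro g hg u _
    exact hg.2 u
  refine (measure_mono hsub).trans ?_
  rw [split (injective_of_det he) _ hφm, pi_gam]
  have hprodm : Measurable fun w : Fin (n + 1) → ℝ =>
      ∏ u ∈ Finset.univ.filter (fun u => u ∉ Set.range e),
        gam (Set.Iic (hat u ⬝ᵥ ((M e)⁻¹ *ᵥ w))) := by
    simp_rw [gam_Iic]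
    refine Finset.measurable_prod _ fun u _ => ?_
    refine ENNReal.measurable_ofReal.comp ?_
    exact Real.measurable_exp.comp (Real.measurable_exp.comp (hφm u).neg).neg
  have hdens : Measurable fun w : Fin (n + 1) → ℝ => ∏ i, ENNReal.ofReal (gden (w i)) := by
    refine Finset.measurable_prod _ fun i _ => ?_
    exact ENNReal.measurable_ofReal.comp
      (continuous_gden.measurable.comp (measurable_pi_apply i))
  rw [lintegral_withDensity_eq_lintegral_mul _ hdens hprodm,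
    change (M e) he _ (hdens.mul hprodm)]
  refine le_of_eq ?_
  congr 1
  apply lintegral_congr
  intro z
  have hinv : (M e)⁻¹ *ᵥ (M e *ᵥ z) = z := by
    rw [Matrix.mulVec_mulVec, Matrix.nonsing_inv_mul _ he.isUnit, Matrix.one_mulVec]
  have hg : ∀ i, gden ((M e *ᵥ z) i) = wt z (e i) * Real.exp (-(wt z (e i))) := by
    intro i
    rw [mulVec_M, gden_eq]
    rfl
  have hI : ∀ u : V n, gam (Set.Iic (hat u ⬝ᵥ z)) = ENNReal.ofReal (Real.exp (-(wt z u))) := by
    intro u
    rw [gam_Iic]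
    rfl
  simp only [Pi.mul_apply, hinv, hg, hI, Set.mem_range]
  rw [← ENNReal.ofReal_prod_of_nonneg
      (fun i _ => mul_nonneg (wt_pos z _).le (Real.exp_pos _).le),
    ← ENNReal.ofReal_prod_of_nonneg (fun u _ => (Real.exp_pos _).le),
    ← ENNReal.ofReal_mul (Finset.prod_nonneg
      fun i _ => mul_nonneg (wt_pos z _).le (Real.exp_pos _).le),
    Finset.prod_mul_distrib, mul_assoc, prob_pt he z]

end Pool.Agent.Lib.MP_727085_co.Rh
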