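import Pool.Agent.Lib.MP_727085_co.Rh.Gum

set_option autoImplicit false

/-!
# Splitting the heights

PROOF. `p v := v ∈ Set.range e`. `measurePreserving_piEquivPiSubtypeProd` (for the constant measure
`gam`) turns `mu n` into the product of the two product measures over `{v // p v}` and
`{v // ¬ p v}`; the first is identified with `Fin (n+1) → ℝ` by
`measurePreserving_piCongrLeft (Equiv.ofInjective e he)` (or arrowCongr'). The event becomes
`{(w, r) | ∀ u : {v // ¬ p v}, r u ≤ φ u w}`, measurable (finite intersection of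
`measurableSet_le`), and `Measure.prod_apply` gives `∫⁻ w, (pi gam) {r | ∀ u, r u ≤ φ u w}`; the set is the box
`Set.pi Set.univ fun u => Set.Iic (φ u w)`, `Measure.pi_pi`; the product over the subtype is the product over
the filtered finset (`Finset.prod_subtype`).
-/

namespace Pool.Agent.Lib.MP_727085_co.Rh

open Pool.Agent.Lib.MP_727085_co Matrix MeasureTheory
open scoped Real ENNReal

variable {n : ℕ}

private theorem spl_meas {e : Fin (n + 1) → V n}
    (φ : V n → (Fin (n + 1) → ℝ) → ℝ) (hφ : ∀ u, Measurable (φ u)) :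
    MeasurableSet {q : ({u // u ∈ Set.range e} → ℝ) × ({u // ¬ u ∈ Set.range e} → ℝ) |
      ∀ u : {u // ¬ u ∈ Set.range e}, q.2 u ≤ φ u (fun i => q.1 ⟨e i, Set.mem_range_self i⟩)} := by
  have h1 : {q : ({u // u ∈ Set.range e} → ℝ) × ({u // ¬ u ∈ Set.range e} → ℝ) |
      ∀ u : {u // ¬ u ∈ Set.range e}, q.2 u ≤ φ u (fun i => q.1 ⟨e i, Set.mem_range_self i⟩)} =
      ⋂ u : {u // ¬ u ∈ Set.range e}, {q | q.2 u ≤
        φ u (fun i => q.1 ⟨e i, Set.mem_range_self i⟩)} := by
    ext q
    simp only [Set.mem_ofPred_eq, Set.mem_iInter]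
  rw [h1]
  refine MeasurableSet.iInter fun u => ?_
  refine measurableSet_le ?_ ?_
  · exact (measurable_pi_apply u).comp measurable_snd
  · refine (hφ u).comp ?_
    refine measurable_pi_lambda _ fun i => ?_
    exact (measurable_pi_apply _).comp measurable_fst

private theorem spl_fst {e : Fin (n + 1) → V n} (he : Function.Injective e)
    (inst : Fintype {u // u ∈ Set.range e})
    (F : (Fin (n + 1) → ℝ) → ℝ≥0∞) :
    ∫⁻ x : {u // u ∈ Set.range e} → ℝ, F (fun i => x ⟨e i, Set.mem_range_self i⟩)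
      ∂(Measure.pi fun _ : {u // u ∈ Set.range e} => gam) = ∫⁻ w, F w ∂(Measure.pi fun _ : Fin (n + 1) => gam) := by
  have h1 := measurePreserving_piCongrLeft (fun _ : {u // u ∈ Set.range e} => gam)
    (Equiv.ofInjective e he)
  have h2 := h1.lintegral_comp_emb (MeasurableEquiv.measurableEmbedding _)
    (fun x => F (fun i => x ⟨e i, Set.mem_range_self i⟩))
  rw [← h2]
  apply lintegral_congr
  intro w
  congr 1
  funext i
  have h3 : (⟨e i, Set.mem_range_self i⟩ : {u // u ∈ Set.range e}) = Equiv.ofInjective e he i := rfl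
  rw [h3, MeasurableEquiv.coe_piCongrLeft, Equiv.piCongrLeft_apply_apply]

open Classical in
theorem split {e : Fin (n + 1) → V n} (he : Function.Injective e)
    (φ : V n → (Fin (n + 1) → ℝ) → ℝ) (hφ : ∀ u, Measurable (φ u)) :
    mu n {g | ∀ u, u ∉ Set.range e → g u ≤ φ u (fun i => g (e i))} =
      ∫⁻ w, ∏ u ∈ Finset.univ.filter (fun u => u ∉ Set.range e), gam (Set.Iic (φ u w))
        ∂(Measure.pi fun _ : Fin (n + 1) => gam) := by
  have h1 := measurePreserving_piEquivPiSubtypeProd (fun _ : V n => gam)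
    (fun u => u ∈ Set.range e)
  have h2 := h1.measure_preimage (spl_meas (e := e) φ hφ).nullMeasurableSet
  have h3 : (MeasurableEquiv.piEquivPiSubtypeProd (fun _ : V n => ℝ) (fun u => u ∈ Set.range e)) ⁻¹'
      {q : ({u // u ∈ Set.range e} → ℝ) × ({u // ¬ u ∈ Set.range e} → ℝ) |
      ∀ u : {u // ¬ u ∈ Set.range e}, q.2 u ≤ φ u (fun i => q.1 ⟨e i, Set.mem_range_self i⟩)} =
      {g | ∀ u, u ∉ Set.range e → g u ≤ φ u (fun i => g (e i))} := by
    ext g
    simp only [Set.mem_preimage, Set.mem_ofPred_eq]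
    constructor
    · intro h u hu
      exact h ⟨u, hu⟩
    · intro h u
      exact h u u.2
  rw [h3] at h2
  rw [mu, h2, Measure.prod_apply (spl_meas φ hφ),
    ← spl_fst he _ (fun w => ∏ u ∈ Finset.univ.filter (fun u => u ∉ Set.range e),
      gam (Set.Iic (φ u w)))]
  apply lintegral_congr
  intro x
  have h4 : Prod.mk x ⁻¹' {q : ({u // u ∈ Set.range e} → ℝ) × ({u // ¬ u ∈ Set.range e} → ℝ) |
      ∀ u : {u // ¬ u ∈ Set.range e}, q.2 u ≤ φ u (fun i => q.1 ⟨e i, Set.mem_range_self i⟩)} =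
      Set.pi Set.univ (fun u : {u // ¬ u ∈ Set.range e} =>
        Set.Iic (φ u (fun i => x ⟨e i, Set.mem_range_self i⟩))) := by
    ext r
    simp only [Set.mem_preimage, Set.mem_ofPred_eq, Set.mem_pi, Set.mem_univ, forall_true_left,
      Set.mem_Iic]
  rw [h4, Measure.pi_pi]
  symm
  exact Finset.prod_subtype _ (fun u => by simp) _

end Pool.Agent.Lib.MP_727085_co.Rh
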